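import Mathlib
import Pool.Agent.N732.GX.Crt
import Pool.Agent.N732.GS.Sing

set_option autoImplicit false
set_option linter.unusedSectionVars false

/-! # Local factors and the singular series of a system of linear forms -/

open Filter Set
open scoped Topology

namespace Pool.Agent.N732.GL

open Pool.Agent.R528.RM Pool.Agent.N732.GS

/-- the local factor of `k` forms with `r` forbidden residues modulo `p` -/
noncomputable def lf (k r p : ℕ) : ℝ := (1 - (r : ℝ) / p) / (1 - 1 / (p : ℝ)) ^ k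

lemma lf_nonneg {k r p : ℕ} (hp : p.Prime) (hr : r ≤ p) : 0 ≤ lf k r p := by
  unfold lf
  have h1 : (r : ℝ) / p ≤ 1 := by
    rw [div_le_one (by exact_mod_cast hp.pos)]
    exact_mod_cast hr
  exact div_nonneg (by linarith) (den_pos hp _).le

lemma lf_ge {k r p : ℕ} (hp : p.Prime) (hr : r < p) : 1 / (p : ℝ) ≤ lf k r p := by
  have hp0 : (0 : ℝ) < p := by exact_mod_cast hp.pos
  have h3 : (r : ℝ) + 1 ≤ p := by exact_mod_cast hr
  unfold lf
  rw [le_div_iff₀ (den_pos hp _)]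
  have h4 : 1 / (p : ℝ) ≤ 1 - (r : ℝ) / p := by
    rw [le_sub_iff_add_le, ← add_div, div_le_one hp0]
    linarith
  have h5 : 0 ≤ 1 / (p : ℝ) := by positivity
  calc 1 / (p : ℝ) * (1 - 1 / (p : ℝ)) ^ k ≤ 1 / (p : ℝ) * 1 := mul_le_mul_of_nonneg_left (den_le_one hp _) h5
    _ ≤ _ := by linarith

lemma lf_lower {k r p : ℕ} (hp : p.Prime) (hk : 2 * k ≤ p) (hr : r ≤ k) :
    1 - 2 * (k : ℝ) ^ 2 * ((p : ℝ) ^ 2)⁻¹ ≤ lf k r p := by
  have hp0 : (0 : ℝ) < p := by exact_mod_cast hp.pos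
  have hk' : 2 * (k : ℝ) ≤ p := by exact_mod_cast hk
  have hk0 : (0 : ℝ) ≤ k := Nat.cast_nonneg _
  set x : ℝ := 1 / (p : ℝ) with hx
  have hx0 : 0 ≤ x := by positivity
  have hx1 : x ≤ 1 := by
    rw [hx, div_le_one hp0]
    exact_mod_cast hp.one_lt.le
  have hkx : k * x ≤ 1 / 2 := by
    rw [hx, mul_one_div, div_le_div_iff₀ hp0 (by norm_num)]
    linarith
  have h1 := one_sub_pow_le k hx0 hx1
  have h2 : (1 - 2 * (k : ℝ) ^ 2 * x ^ 2) * (1 - k * x + k ^ 2 * x ^ 2) ≤ 1 - k * x := by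
    have e : 1 - (k : ℝ) * x - (1 - 2 * k ^ 2 * x ^ 2) * (1 - k * x + k ^ 2 * x ^ 2) =
      (k ^ 2 * x ^ 2) * (1 - 2 * (k * x) + 2 * (k * x) ^ 2) := by ring
    have : 0 ≤ ((k : ℝ) ^ 2 * x ^ 2) * (1 - 2 * (k * x) + 2 * (k * x) ^ 2) := by
      apply mul_nonneg (by positivity)
      nlinarith [sq_nonneg ((k : ℝ) * x)]
    linarith
  have h3 : 0 ≤ 1 - 2 * (k : ℝ) ^ 2 * x ^ 2 := by
    have : ((k : ℝ) * x) ^ 2 ≤ (1 / 2) ^ 2 := pow_le_pow_left₀ (by positivity) hkx 2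
    nlinarith
  have h5 : ((p : ℝ) ^ 2)⁻¹ = x ^ 2 := by rw [hx]; field_simp
  rw [h5]
  unfold lf
  rw [le_div_iff₀ (den_pos hp _)]
  have h6 : (r : ℝ) / p ≤ k * x := by
    rw [hx, mul_one_div]
    apply div_le_div_of_nonneg_right _ hp0.le
    exact_mod_cast hr
  calc (1 - 2 * (k : ℝ) ^ 2 * x ^ 2) * (1 - x) ^ k ≤ (1 - 2 * k ^ 2 * x ^ 2) * (1 - k * x + k ^ 2 * x ^ 2) :=
        mul_le_mul_of_nonneg_left h1 h3
    _ ≤ 1 - k * x := h2
    _ ≤ _ := by linarith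

lemma lf_upper {k r p : ℕ} (hp : p.Prime) (hk : 2 * k ≤ p) : lf k r p ≤ 1 + 2 * (k : ℝ) * (p : ℝ)⁻¹ := by
  have hp0 : (0 : ℝ) < p := by exact_mod_cast hp.pos
  have hk' : 2 * (k : ℝ) ≤ p := by exact_mod_cast hk
  have hk0 : (0 : ℝ) ≤ k := Nat.cast_nonneg _
  have hx0 : 0 ≤ (p : ℝ)⁻¹ := by positivity
  have hkx : k * (p : ℝ)⁻¹ ≤ 1 / 2 := by
    rw [← div_eq_mul_inv, div_le_div_iff₀ hp0 (by norm_num)]
    linarith
  have hx1 : (p : ℝ)⁻¹ ≤ 1 := inv_le_one_of_one_le₀ (by exact_mod_cast hp.one_lt.le)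
  have h1 := one_add_mul_le_pow (show (-2 : ℝ) ≤ -(p : ℝ)⁻¹ by linarith) k
  have hden := den_pos hp k
  unfold lf
  rw [one_div] at *
  rw [div_le_iff₀ hden]
  have h6 : 0 ≤ (r : ℝ) / p := by positivity
  have h7 : 1 - k * (p : ℝ)⁻¹ ≤ (1 - (p : ℝ)⁻¹) ^ k := by
    rw [show (1 : ℝ) - (p : ℝ)⁻¹ = 1 + -(p : ℝ)⁻¹ by ring]
    linarith
  calc 1 - (r : ℝ) / p ≤ 1 := by linarith
    _ ≤ (1 + 2 * k * (p : ℝ)⁻¹) * (1 - k * (p : ℝ)⁻¹) := by
      have : 0 ≤ k * (p : ℝ)⁻¹ := by positivity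
      nlinarith
    _ ≤ _ := mul_le_mul_of_nonneg_left h7 (by positivity)

lemma lf_le_one {k p : ℕ} (hp : p.Prime) : lf k k p ≤ 1 := by
  have hp0 : (0 : ℝ) < p := by exact_mod_cast hp.pos
  unfold lf
  rw [div_le_one (den_pos hp _)]
  have hx1 : 1 / (p : ℝ) ≤ 1 := by
    rw [div_le_one hp0]
    exact_mod_cast hp.one_lt.le
  have h1 := one_add_mul_le_pow (show (-2 : ℝ) ≤ -(1 / (p : ℝ)) by linarith) k
  rw [show (1 : ℝ) - 1 / (p : ℝ) = 1 + -(1 / (p : ℝ)) by ring]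
  calc 1 - (k : ℝ) / p = 1 + (k : ℝ) * -(1 / (p : ℝ)) := by ring
    _ ≤ _ := h1

/-- the factors at primes above `y` -/
lemma tail {k y : ℕ} (hy : 2 * k ≤ y) (hy2 : 2 * k ^ 2 ≤ y) (hy1 : 1 ≤ y) (B R : Finset ℕ)
    (hR : ∀ p ∈ R, p.Prime) (hRy : ∀ p ∈ R, y < p) (kk rr : ℕ → ℕ) (h1 : ∀ p ∈ R, kk p ≤ k)
    (h2 : ∀ p ∈ R, rr p ≤ kk p) (h3 : ∀ p ∈ R, p ∉ B → rr p = kk p) :
    1 - 2 * (k : ℝ) ^ 2 / y ≤ ∏ p ∈ R, lf (kk p) (rr p) p ∧
      ∏ p ∈ R, lf (kk p) (rr p) p ≤ Real.exp (2 * k / y * (B.filter (y < ·)).card) := by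
  classical
  have hy0 : (0 : ℝ) < y := by exact_mod_cast hy1
  have hkk : ∀ p ∈ R, 2 * kk p ≤ p := by
    intro p hp
    have := hRy p hp
    have := h1 p hp
    omega
  have hkR : ∀ p ∈ R, ((kk p : ℕ) : ℝ) ≤ k := fun p hp => by exact_mod_cast h1 p hp
  constructor
  · have hs : ∑ p ∈ R, 2 * (k : ℝ) ^ 2 * ((p : ℝ) ^ 2)⁻¹ ≤ 2 * (k : ℝ) ^ 2 / y := by
      rw [← Finset.mul_sum, div_eq_mul_inv]
      apply mul_le_mul_of_nonneg_left _ (by positivity)
      have h1 : R ⊆ Finset.Ioc y (max y (R.sup id)) := by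
        intro p hp
        rw [Finset.mem_Ioc]
        exact ⟨hRy p hp, le_max_of_le_right (Finset.le_sup (f := id) hp)⟩
      calc ∑ p ∈ R, ((p : ℝ) ^ 2)⁻¹ ≤ ∑ p ∈ Finset.Ioc y (max y (R.sup id)), ((p : ℝ) ^ 2)⁻¹ :=
            Finset.sum_le_sum_of_subset_of_nonneg h1 fun _ _ _ => by positivity
        _ ≤ (y : ℝ)⁻¹ - ((max y (R.sup id) : ℕ) : ℝ)⁻¹ := sum_Ioc_inv_sq_le_sub (by omega) (le_max_left _ _)
        _ ≤ (y : ℝ)⁻¹ := by
          have : 0 ≤ ((max y (R.sup id) : ℕ) : ℝ)⁻¹ := by positivity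
          linarith
    have hs1 : ∑ p ∈ R, 2 * (k : ℝ) ^ 2 * ((p : ℝ) ^ 2)⁻¹ ≤ 1 := by
      refine hs.trans ?_
      rw [div_le_one hy0]
      exact_mod_cast hy2
    have g2 := prod_one_sub_ge R (fun p => 2 * (k : ℝ) ^ 2 * ((p : ℝ) ^ 2)⁻¹) (fun _ _ => by positivity) hs1
    have g3 : ∏ p ∈ R, (1 - 2 * (k : ℝ) ^ 2 * ((p : ℝ) ^ 2)⁻¹) ≤ ∏ p ∈ R, lf (kk p) (rr p) p := by
      apply Finset.prod_le_prod
      · intro p hp
        have h4 := Finset.single_le_sum (f := fun p : ℕ => 2 * (k : ℝ) ^ 2 * ((p : ℝ) ^ 2)⁻¹) (fun _ _ => by positivity) hp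
        linarith
      · intro p hp
        refine le_trans ?_ (lf_lower (hR p hp) (hkk p hp) (h2 p hp))
        have h5 : ((kk p : ℕ) : ℝ) ^ 2 ≤ (k : ℝ) ^ 2 := pow_le_pow_left₀ (Nat.cast_nonneg _) (hkR p hp) 2
        have h6 : 0 ≤ ((p : ℝ) ^ 2)⁻¹ := by positivity
        have := mul_le_mul_of_nonneg_right h5 h6
        linarith
    linarith
  · calc ∏ p ∈ R, lf (kk p) (rr p) p ≤ ∏ p ∈ R, (if p ∈ B then 1 + 2 * (k : ℝ) / y else 1) := by
          apply Finset.prod_le_prod (fun p hp => lf_nonneg (hR p hp) ?_)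
          · intro p hp
            split_ifs with h
            · refine (lf_upper (hR p hp) (hkk p hp)).trans ?_
              rw [div_eq_mul_inv]
              have g1 : (p : ℝ)⁻¹ ≤ (y : ℝ)⁻¹ := inv_anti₀ hy0 (by exact_mod_cast (hRy p hp).le)
              have g2 : 2 * ((kk p : ℕ) : ℝ) ≤ 2 * k := by linarith [hkR p hp]
              have g3 := mul_le_mul g2 g1 (by positivity) (by positivity)
              linarith
            · rw [h3 p hp h]
              exact lf_le_one (hR p hp)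
          · have := hkk p hp
            have := h2 p hp
            omega
      _ = (1 + 2 * (k : ℝ) / y) ^ (R.filter (· ∈ B)).card := by
          rw [← Finset.prod_filter, Finset.prod_const]
      _ ≤ (1 + 2 * (k : ℝ) / y) ^ (B.filter (y < ·)).card := by
          apply pow_le_pow_right₀
          · have : 0 ≤ 2 * (k : ℝ) / y := by positivity
            linarith
          · refine Finset.card_le_card fun p hp => ?_
            rw [Finset.mem_filter] at hp ⊢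
            exact ⟨hp.2, hRy p hp.1⟩
      _ ≤ (Real.exp (2 * (k : ℝ) / y)) ^ (B.filter (y < ·)).card := by
          apply pow_le_pow_left₀ (by positivity)
          have := Real.add_one_le_exp (2 * (k : ℝ) / y)
          linarith
      _ = _ := by
          rw [← Real.exp_nat_mul]
          congr 1
          ring

/-! ### Systems -/

/-- the forbidden residues modulo `p` -/
def res (s : Finset (ℕ × ℕ)) (p : ℕ) : Finset ℕ := (Finset.range p).filter fun r => ∃ f ∈ s, p ∣ f.1 * r + f.2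

/-- the number of forbidden residues -/
def nu (s : Finset (ℕ × ℕ)) (p : ℕ) : ℕ := (res s p).card

/-- no fixed prime divisor -/
def Adm (s : Finset (ℕ × ℕ)) : Prop := ∀ p : ℕ, p.Prime → nu s p < p

/-- the singular series -/
noncomputable def sing (s : Finset (ℕ × ℕ)) : ℝ := ∏' p : Nat.Primes, lf s.card (nu s p) p

/-- the exceptional primes -/
def bad (s : Finset (ℕ × ℕ)) : Finset ℕ :=
  (s.biUnion fun f => f.1.primeFactors) ∪ (s ×ˢ s).biUnion fun fg => (fg.1.1 * fg.2.2 - fg.2.1 * fg.1.2).primeFactors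

lemma nu_le (s : Finset (ℕ × ℕ)) (p : ℕ) : nu s p ≤ p := by
  have := Finset.card_filter_le (Finset.range p) (fun r => ∃ f ∈ s, p ∣ f.1 * r + f.2)
  rw [Finset.card_range] at this
  exact this

lemma res_biUnion (s : Finset (ℕ × ℕ)) (p : ℕ) :
    res s p = s.biUnion fun f => (Finset.range p).filter fun r => p ∣ f.1 * r + f.2 := by
  ext r
  simp only [res, Finset.mem_filter, Finset.mem_biUnion]
  constructor
  · rintro ⟨h1, f, hf, h2⟩
    exact ⟨f, hf, h1, h2⟩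
  · rintro ⟨f, hf, h1, h2⟩
    exact ⟨h1, f, hf, h2⟩

lemma root_one {a b p : ℕ} (hp : p.Prime) (ha : ¬ p ∣ a) : ((Finset.range p).filter fun r => p ∣ a * r + b).card = 1 := by
  have : Fact p.Prime := ⟨hp⟩
  have ha' : (a : ZMod p) ≠ 0 := fun h => ha ((ZMod.natCast_eq_zero_iff a p).1 h)
  rw [Finset.card_eq_one]
  refine ⟨(-(b : ZMod p) * (a : ZMod p)⁻¹).val, ?_⟩
  ext r
  rw [Finset.mem_filter, Finset.mem_range, Finset.mem_singleton]
  constructor
  · rintro ⟨h1, h2⟩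
    have h3 : ((a * r + b : ℕ) : ZMod p) = 0 := (ZMod.natCast_eq_zero_iff _ p).2 h2
    push_cast at h3
    have h4 : (r : ZMod p) = -(b : ZMod p) * (a : ZMod p)⁻¹ := by
      field_simp
      linear_combination h3
    rw [← h4, ZMod.val_natCast, Nat.mod_eq_of_lt h1]
  · intro h
    refine ⟨by rw [h]; exact ZMod.val_lt _, ?_⟩
    rw [← ZMod.natCast_eq_zero_iff]
    push_cast
    rw [h, ZMod.natCast_zmod_val]
    field_simp
    ring

lemma root_zero {a b p : ℕ} (ha : p ∣ a) (hb : ¬ p ∣ b) : ((Finset.range p).filter fun r => p ∣ a * r + b).card = 0 := by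
  rw [Finset.card_eq_zero, Finset.filter_eq_empty_iff]
  intro r _ h
  exact hb ((Nat.dvd_add_right (ha.mul_right r)).1 h)

lemma adm_not {s : Finset (ℕ × ℕ)} (hs : Adm s) {p : ℕ} (hp : p.Prime) {f : ℕ × ℕ} (hf : f ∈ s) (ha : p ∣ f.1) : ¬ p ∣ f.2 := by
  intro hb
  have h1 : res s p = Finset.range p := by
    unfold res
    rw [Finset.filter_true_of_mem]
    intro r _
    exact ⟨f, hf, dvd_add (ha.mul_right r) hb⟩
  have h2 := hs p hp
  unfold nu at h2
  rw [h1, Finset.card_range] at h2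
  exact lt_irrefl _ h2

lemma nu_sub_le {s t : Finset (ℕ × ℕ)} (hs : Adm s) (ht : t ⊆ s) {p : ℕ} (hp : p.Prime) : nu t p ≤ t.card := by
  unfold nu
  rw [res_biUnion]
  refine Finset.card_biUnion_le.trans ?_
  rw [Finset.card_eq_sum_ones]
  refine Finset.sum_le_sum fun f hf => ?_
  by_cases ha : p ∣ f.1
  · rw [root_zero ha (adm_not hs hp (ht hf) ha)]
    omega
  · rw [root_one hp ha]

lemma adm_mono {s t : Finset (ℕ × ℕ)} (hs : Adm s) (ht : t ⊆ s) : Adm t := by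
  intro p hp
  refine lt_of_le_of_lt (Finset.card_le_card ?_) (hs p hp)
  intro r hr
  unfold res at hr ⊢
  rw [Finset.mem_filter] at hr ⊢
  obtain ⟨h1, f, hf, h2⟩ := hr
  exact ⟨h1, f, ht hf, h2⟩

lemma adm_coprime {s : Finset (ℕ × ℕ)} (hs : Adm s) {f : ℕ × ℕ} (hf : f ∈ s) : Nat.Coprime f.1 f.2 := by
  by_contra hcon
  obtain ⟨p, hp, h1, h2⟩ := Nat.Prime.not_coprime_iff_dvd.1 hcon
  exact adm_not hs hp hf h1 h2

lemma det_ne {s : Finset (ℕ × ℕ)} (hs : Adm s) {f g : ℕ × ℕ} (hf : f ∈ s) (hg : g ∈ s) (hfg : f ≠ g)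
    (_hf0 : 1 ≤ f.1) (_hg0 : 1 ≤ g.1) : f.1 * g.2 ≠ g.1 * f.2 := by
  intro h
  apply hfg
  have c1 := adm_coprime hs hf
  have c2 := adm_coprime hs hg
  have h1 : f.1 ∣ g.1 := by
    have : f.1 ∣ g.1 * f.2 := ⟨g.2, h.symm⟩
    exact c1.dvd_of_dvd_mul_right this
  have h2 : g.1 ∣ f.1 := by
    have : g.1 ∣ f.1 * g.2 := ⟨f.2, h⟩
    exact c2.dvd_of_dvd_mul_right this
  have h3 : f.1 = g.1 := Nat.dvd_antisymm h1 h2
  rw [h3] at h
  have h4 : g.2 = f.2 := Nat.eq_of_mul_eq_mul_left (by omega) h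
  exact Prod.ext h3 h4.symm

lemma nu_eq_of_not_bad {s t : Finset (ℕ × ℕ)} (hs : Adm s) (hs1 : ∀ f ∈ s, 1 ≤ f.1) (ht : t ⊆ s) {p : ℕ} (hp : p.Prime)
    (hb : p ∉ bad s) : nu t p = t.card := by
  have hbad1 : ∀ f ∈ s, ¬ p ∣ f.1 := by
    intro f hf h
    apply hb
    unfold bad
    rw [Finset.mem_union, Finset.mem_biUnion]
    left
    refine ⟨f, hf, Nat.mem_primeFactors.2 ⟨hp, h, ?_⟩⟩
    have := hs1 f hf
    omega
  have hdet : ∀ f ∈ s, ∀ g ∈ s, g.1 * f.2 < f.1 * g.2 → ¬ p ∣ f.1 * g.2 - g.1 * f.2 := by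
    intro f hf g hg hlt h
    apply hb
    unfold bad
    rw [Finset.mem_union]
    right
    rw [Finset.mem_biUnion]
    refine ⟨(f, g), Finset.mem_product.2 ⟨hf, hg⟩, Nat.mem_primeFactors.2 ⟨hp, h, ?_⟩⟩
    simp only
    omega
  unfold nu
  rw [res_biUnion, Finset.card_biUnion]
  · rw [Finset.card_eq_sum_ones]
    refine Finset.sum_congr rfl fun f hf => root_one hp (hbad1 f (ht hf))
  · intro f hf g hg hfg
    rw [Function.onFun, Finset.disjoint_left]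
    intro r hr1 hr2
    rw [Finset.mem_filter] at hr1 hr2
    have hf' := ht hf
    have hg' := ht hg
    have key : ((f.1 * g.2 : ℕ) : ZMod p) = ((g.1 * f.2 : ℕ) : ZMod p) := by
      have e1 : ((f.1 * r + f.2 : ℕ) : ZMod p) = 0 := (ZMod.natCast_eq_zero_iff _ p).2 hr1.2
      have e2 : ((g.1 * r + g.2 : ℕ) : ZMod p) = 0 := (ZMod.natCast_eq_zero_iff _ p).2 hr2.2
      push_cast at e1 e2 ⊢
      linear_combination (f.1 : ZMod p) * e2 - (g.1 : ZMod p) * e1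
    rcases lt_or_gt_of_ne (det_ne hs hf' hg' hfg (hs1 f hf') (hs1 g hg')) with h | h
    · apply hdet g hg' f hf' h
      exact (Nat.modEq_iff_dvd' h.le).1 ((ZMod.natCast_eq_natCast_iff _ _ _).1 key)
    · apply hdet f hf' g hg' h
      exact (Nat.modEq_iff_dvd' h.le).1 ((ZMod.natCast_eq_natCast_iff _ _ _).1 key.symm)

/-- the number of large prime factors -/
lemma pf_card (m : ℕ) {y : ℕ} (hy : 1 < y) : (((m.primeFactors.filter (y < ·)).card : ℕ) : ℝ) * Real.log y ≤ Real.log m := by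
  classical
  rcases Nat.eq_zero_or_pos m with h0 | h0
  · subst h0
    simp
  set B := m.primeFactors.filter (y < ·) with hB
  have h1 : ∏ p ∈ B, p ∣ m := Finset.prod_primes_dvd m (fun p hp => (Nat.prime_of_mem_primeFactors (Finset.mem_filter.1 hp).1).prime)
    (fun p hp => Nat.dvd_of_mem_primeFactors (Finset.mem_filter.1 hp).1)
  have h2 : y ^ B.card ≤ m := by
    refine le_trans ?_ (Nat.le_of_dvd h0 h1)
    rw [← Finset.prod_const]
    exact Finset.prod_le_prod' fun p hp => (Finset.mem_filter.1 hp).2.le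
  have h3 : ((y : ℝ)) ^ B.card ≤ m := by exact_mod_cast h2
  have hy0 : (0 : ℝ) < y := by exact_mod_cast (by omega : 0 < y)
  have h4 := Real.log_le_log (by positivity) h3
  rwa [Real.log_pow] at h4

lemma bad_card {s : Finset (ℕ × ℕ)} {Y y : ℕ} (hY : 1 ≤ Y) (hy : 1 < y) (hs : s ⊆ Finset.Icc 1 Y ×ˢ Finset.Icc 1 Y) :
    ((((bad s).filter (y < ·)).card : ℕ) : ℝ) * Real.log y ≤ 3 * (s.card : ℝ) ^ 2 * Real.log Y := by
  classical
  have hYR : (1 : ℝ) ≤ Y := by exact_mod_cast hY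
  have hlY : 0 ≤ Real.log (Y : ℝ) := Real.log_nonneg hYR
  have hly : 0 ≤ Real.log (y : ℝ) := Real.log_natCast_nonneg y
  have h1 : ((bad s).filter (y < ·)).card ≤ ∑ f ∈ s, (f.1.primeFactors.filter (y < ·)).card +
      ∑ fg ∈ s ×ˢ s, ((fg.1.1 * fg.2.2 - fg.2.1 * fg.1.2).primeFactors.filter (y < ·)).card := by
    unfold bad
    rw [Finset.filter_union, Finset.filter_biUnion, Finset.filter_biUnion]
    exact (Finset.card_union_le _ _).trans (Nat.add_le_add Finset.card_biUnion_le Finset.card_biUnion_le)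
  have h2 : ((((bad s).filter (y < ·)).card : ℕ) : ℝ) * Real.log y ≤
      (∑ f ∈ s, (((f.1.primeFactors.filter (y < ·)).card : ℕ) : ℝ) * Real.log y) +
      ∑ fg ∈ s ×ˢ s, ((((fg.1.1 * fg.2.2 - fg.2.1 * fg.1.2).primeFactors.filter (y < ·)).card : ℕ) : ℝ) * Real.log y := by
    rw [← Finset.sum_mul, ← Finset.sum_mul, ← add_mul]
    apply mul_le_mul_of_nonneg_right _ hly
    exact_mod_cast h1
  have h3 : ∀ f ∈ s, (((f.1.primeFactors.filter (y < ·)).card : ℕ) : ℝ) * Real.log y ≤ Real.log Y := by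
    intro f hf
    refine (pf_card f.1 hy).trans ?_
    have h := (Finset.mem_Icc.1 (Finset.mem_product.1 (hs hf)).1)
    exact Real.log_le_log (by exact_mod_cast h.1) (by exact_mod_cast h.2)
  have h4 : ∀ fg ∈ s ×ˢ s, ((((fg.1.1 * fg.2.2 - fg.2.1 * fg.1.2).primeFactors.filter (y < ·)).card : ℕ) : ℝ) * Real.log y ≤ 2 * Real.log Y := by
    intro fg hfg
    refine (pf_card _ hy).trans ?_
    obtain ⟨g1, g2⟩ := Finset.mem_product.1 hfg
    have e1 := (Finset.mem_Icc.1 (Finset.mem_product.1 (hs g1)).1)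
    have e2 := (Finset.mem_Icc.1 (Finset.mem_product.1 (hs g2)).2)
    rcases Nat.eq_zero_or_pos (fg.1.1 * fg.2.2 - fg.2.1 * fg.1.2) with h0 | h0
    · rw [h0]
      simp only [Nat.cast_zero, Real.log_zero]
      positivity
    · have e3 : fg.1.1 * fg.2.2 - fg.2.1 * fg.1.2 ≤ Y ^ 2 := by
        have : fg.1.1 * fg.2.2 ≤ Y * Y := Nat.mul_le_mul e1.2 e2.2
        rw [sq]
        omega
      have e4 : ((fg.1.1 * fg.2.2 - fg.2.1 * fg.1.2 : ℕ) : ℝ) ≤ (Y : ℝ) ^ 2 := by exact_mod_cast e3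
      have e5 := Real.log_le_log (by exact_mod_cast h0) e4
      rwa [Real.log_pow] at e5
  have h5 := Finset.sum_le_sum h3
  have h6 := Finset.sum_le_sum h4
  rw [Finset.sum_const, nsmul_eq_mul] at h5 h6
  rw [Finset.card_product] at h6
  push_cast at h6
  have h7 : (s.card : ℝ) ≤ (s.card : ℝ) ^ 2 := by
    rcases Nat.eq_zero_or_pos s.card with h | h
    · rw [h]; simp
    · have : (1 : ℝ) ≤ s.card := by exact_mod_cast h
      nlinarith
  have h8 := mul_le_mul_of_nonneg_right h7 hlY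
  nlinarith

lemma lf_multipliable {s : Finset (ℕ × ℕ)} (hs : Adm s) (hs1 : ∀ f ∈ s, 1 ≤ f.1) :
    Multipliable (fun p : Nat.Primes => lf s.card (nu s p) p) := by
  have h1 : (fun p : Nat.Primes => lf s.card (nu s p) p) = fun p : Nat.Primes => 1 + (lf s.card (nu s p) p - 1) := by
    funext p; ring
  rw [h1]
  apply multipliable_one_add_of_summable
  have hsum : Summable (fun p : Nat.Primes => 2 * (s.card : ℝ) ^ 2 * (((p : ℕ) : ℝ) ^ 2)⁻¹) := by
    apply Summable.mul_left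
    have h2 : Summable (fun n : ℕ => ((n : ℝ) ^ 2)⁻¹) := Real.summable_nat_pow_inv.2 (by norm_num)
    exact h2.comp_injective Nat.Primes.coe_nat_injective
  refine Summable.of_norm_bounded_eventually hsum ?_
  have hfin : {p : Nat.Primes | ¬ (2 * s.card ≤ (p : ℕ) ∧ (p : ℕ) ∉ bad s)}.Finite := by
    have h3 : Set.Finite ((Finset.range (2 * s.card) ∪ bad s : Finset ℕ) : Set ℕ) := Finset.finite_toSet _
    refine (h3.preimage (f := fun p : Nat.Primes => (p : ℕ)) Nat.Primes.coe_nat_injective.injOn).subset ?_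
    intro p hp
    simp only [Set.mem_ofPred_eq, not_and_or, not_le, not_not] at hp
    simp only [Set.mem_preimage, Finset.coe_union, Set.mem_union, Finset.mem_coe, Finset.mem_range]
    exact hp
  filter_upwards [hfin.compl_mem_cofinite] with p hp
  simp only [Set.mem_compl_iff, Set.mem_ofPred_eq, not_not] at hp
  have h4 := lf_lower (k := s.card) (r := nu s p) p.2 hp.1 (nu_sub_le hs (Finset.Subset.refl s) p.2)
  have h5 : lf s.card (nu s p) p ≤ 1 := by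
    rw [nu_eq_of_not_bad hs hs1 (Finset.Subset.refl s) p.2 hp.2]
    exact lf_le_one p.2
  rw [norm_norm, Real.norm_eq_abs, abs_le]
  have : 0 ≤ 2 * (s.card : ℝ) ^ 2 * (((p : ℕ) : ℝ) ^ 2)⁻¹ := by positivity
  constructor <;> linarith

/-- the truncated singular series -/
noncomputable def tr (s : Finset (ℕ × ℕ)) (y : ℕ) : ℝ := ∏ p ∈ (Finset.range (y + 1)).filter Nat.Prime, lf s.card (nu s p) p

lemma tr_nonneg (s : Finset (ℕ × ℕ)) (y : ℕ) : 0 ≤ tr s y :=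
  Finset.prod_nonneg fun p hp => lf_nonneg (Finset.mem_filter.1 hp).2 (nu_le s p)

/-- comparison of products over sets containing the small primes with the truncation -/
lemma prod_tr {s : Finset (ℕ × ℕ)} (hs : Adm s) (hs1 : ∀ f ∈ s, 1 ≤ f.1) {y : ℕ} (hy : 2 * s.card ≤ y) (hy2 : 2 * s.card ^ 2 ≤ y)
    (hy1 : 1 ≤ y) (U : Finset ℕ) (hU : ∀ p ∈ U, p.Prime) (hUy : ∀ p : ℕ, p.Prime → p ≤ y → p ∈ U) (t : ℕ → Finset (ℕ × ℕ))
    (ht : ∀ p, t p ⊆ s) (hty : ∀ p, p.Prime → p ≤ y → t p = s) :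
    (1 - 2 * (s.card : ℝ) ^ 2 / y) * tr s y ≤ ∏ p ∈ U, lf (t p).card (nu (t p) p) p ∧
      ∏ p ∈ U, lf (t p).card (nu (t p) p) p ≤ Real.exp (2 * s.card / y * ((bad s).filter (y < ·)).card) * tr s y := by
  classical
  have hsub : (Finset.range (y + 1)).filter Nat.Prime ⊆ U := by
    intro p hp
    rw [Finset.mem_filter, Finset.mem_range] at hp
    exact hUy p hp.2 (by omega)
  have e1 : ∏ p ∈ U, lf (t p).card (nu (t p) p) p =
      (∏ p ∈ U \ (Finset.range (y + 1)).filter Nat.Prime, lf (t p).card (nu (t p) p) p) * tr s y := by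
    rw [← Finset.prod_sdiff hsub]
    congr 1
    unfold tr
    refine Finset.prod_congr rfl fun p hp => ?_
    rw [Finset.mem_filter, Finset.mem_range] at hp
    rw [hty p hp.2 (by omega)]
  have h1 := tail (k := s.card) hy hy2 hy1 (bad s) (U \ (Finset.range (y + 1)).filter Nat.Prime)
    (fun p hp => hU p (Finset.mem_sdiff.1 hp).1) (fun p hp => by
      obtain ⟨h2, h3⟩ := Finset.mem_sdiff.1 hp
      by_contra hcon
      exact h3 (Finset.mem_filter.2 ⟨Finset.mem_range.2 (by omega), hU p h2⟩))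
    (fun p => (t p).card) (fun p => nu (t p) p) (fun p _ => Finset.card_le_card (ht p))
    (fun p hp => nu_sub_le hs (ht p) (hU p (Finset.mem_sdiff.1 hp).1))
    (fun p hp hb => nu_eq_of_not_bad hs hs1 (ht p) (hU p (Finset.mem_sdiff.1 hp).1) hb)
  rw [e1]
  exact ⟨mul_le_mul_of_nonneg_right h1.1 (tr_nonneg s y), mul_le_mul_of_nonneg_right h1.2 (tr_nonneg s y)⟩

lemma sing_tr {s : Finset (ℕ × ℕ)} (hs : Adm s) (hs1 : ∀ f ∈ s, 1 ≤ f.1) {y : ℕ} (hy : 2 * s.card ≤ y) (hy2 : 2 * s.card ^ 2 ≤ y)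
    (hy1 : 1 ≤ y) :
    (1 - 2 * (s.card : ℝ) ^ 2 / y) * tr s y ≤ sing s ∧
      sing s ≤ Real.exp (2 * s.card / y * ((bad s).filter (y < ·)).card) * tr s y := by
  classical
  have hprod := (lf_multipliable hs hs1).hasProd
  have hev : ∀ᶠ T : Finset Nat.Primes in atTop, (1 - 2 * (s.card : ℝ) ^ 2 / y) * tr s y ≤ ∏ p ∈ T, lf s.card (nu s p) p ∧
      ∏ p ∈ T, lf s.card (nu s p) p ≤ Real.exp (2 * s.card / y * ((bad s).filter (y < ·)).card) * tr s y := by
    filter_upwards [eventually_ge_atTop ((Finset.range (y + 1)).subtype Nat.Prime)] with T hT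
    set Q : Finset ℕ := T.map ⟨fun p : Nat.Primes => (p : ℕ), Nat.Primes.coe_nat_injective⟩ with hQ
    have e1 : ∏ p ∈ T, lf s.card (nu s p) p = ∏ p ∈ Q, lf s.card (nu s p) p := by
      rw [hQ, Finset.prod_map]
      rfl
    rw [e1]
    exact prod_tr hs hs1 hy hy2 hy1 Q (fun p hp => by
      rw [hQ, Finset.mem_map] at hp
      obtain ⟨q, _, rfl⟩ := hp
      exact q.2) (fun p hp hpy => by
      rw [hQ, Finset.mem_map]
      exact ⟨⟨p, hp⟩, hT (by rw [Finset.mem_subtype]; exact Finset.mem_range.2 (by simp only; omega)), rfl⟩) (fun _ => s)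
      (fun _ => Finset.Subset.refl s) (fun _ _ _ => rfl)
  exact ⟨ge_of_tendsto hprod (hev.mono fun _ h => h.1), le_of_tendsto hprod (hev.mono fun _ h => h.2)⟩

/-- the singular series of systems of `k` forms is bounded below -/
lemma sing_lower (k : ℕ) : ∃ c : ℝ, 0 < c ∧ ∀ s : Finset (ℕ × ℕ), s.card = k → Adm s → (∀ f ∈ s, 1 ≤ f.1) → c ≤ sing s := by
  classical
  set y : ℕ := 4 * k ^ 2 + 2 * k + 1 with hy
  have hc : 0 < ∏ p ∈ (Finset.range (y + 1)).filter Nat.Prime, 1 / (p : ℝ) := Finset.prod_pos fun p hp => by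
    have : (0 : ℝ) < p := by exact_mod_cast (Finset.mem_filter.1 hp).2.pos
    positivity
  refine ⟨1 / 2 * ∏ p ∈ (Finset.range (y + 1)).filter Nat.Prime, 1 / (p : ℝ), by positivity, fun s hk hs hs1 => ?_⟩
  have h1 := (sing_tr hs hs1 (y := y) (by rw [hk]; omega) (by rw [hk, hy]; nlinarith) (by omega)).1
  rw [hk] at h1
  have h3 : ∏ p ∈ (Finset.range (y + 1)).filter Nat.Prime, 1 / (p : ℝ) ≤ tr s y := by
    apply Finset.prod_le_prod (fun p _ => by positivity)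
    intro p hp
    exact lf_ge (Finset.mem_filter.1 hp).2 (hs p (Finset.mem_filter.1 hp).2)
  have h4 : (1 : ℝ) / 2 ≤ 1 - 2 * (k : ℝ) ^ 2 / y := by
    have hy0 : (0 : ℝ) < y := by rw [hy]; positivity
    rw [le_sub_iff_add_le, ← le_sub_iff_add_le', div_le_iff₀ hy0]
    have : (y : ℝ) = 4 * k ^ 2 + 2 * k + 1 := by rw [hy]; push_cast; ring
    rw [this]
    have : (0 : ℝ) ≤ k := Nat.cast_nonneg k
    nlinarith
  calc 1 / 2 * ∏ p ∈ (Finset.range (y + 1)).filter Nat.Prime, 1 / (p : ℝ) ≤ (1 - 2 * (k : ℝ) ^ 2 / y) * tr s y :=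
        mul_le_mul h4 h3 hc.le (by linarith)
    _ ≤ _ := h1

/-- both products are close -/
lemma prod_close {s : Finset (ℕ × ℕ)} (hs : Adm s) {y Y : ℕ} (hY : 1 ≤ Y) (hsY : s ⊆ Finset.Icc 1 Y ×ˢ Finset.Icc 1 Y)
    (hy : 2 * s.card ≤ y) (hy2 : 2 * s.card ^ 2 ≤ y) (hy1 : 1 < y) {δ : ℝ} (hδ : 0 < δ) (hδ1 : δ ≤ 1)
    (h1 : 2 * (s.card : ℝ) ^ 2 / y ≤ δ / 4) (h2 : 6 * (s.card : ℝ) ^ 3 * Real.log Y ≤ δ / 8 * (y * Real.log y))
    (U : Finset ℕ) (hU : ∀ p ∈ U, p.Prime) (hUy : ∀ p : ℕ, p.Prime → p ≤ y → p ∈ U) (t : ℕ → Finset (ℕ × ℕ))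
    (ht : ∀ p, t p ⊆ s) (hty : ∀ p, p.Prime → p ≤ y → t p = s) :
    (1 - δ) * sing s ≤ ∏ p ∈ U, lf (t p).card (nu (t p) p) p ∧ ∏ p ∈ U, lf (t p).card (nu (t p) p) p ≤ (1 + δ) * sing s := by
  have hs1 : ∀ f ∈ s, 1 ≤ f.1 := fun f hf => (Finset.mem_Icc.1 (Finset.mem_product.1 (hsY hf)).1).1
  obtain ⟨a1, a2⟩ := prod_tr hs hs1 hy hy2 (by omega) U hU hUy t ht hty
  obtain ⟨b1, b2⟩ := sing_tr hs hs1 hy hy2 (by omega)
  have hy0 : (0 : ℝ) < y := by exact_mod_cast (by omega : 0 < y)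
  have hy1' : (1 : ℝ) < y := by exact_mod_cast hy1
  have hly : 0 < Real.log (y : ℝ) := Real.log_pos hy1'
  have h3 := bad_card hY hy1 hsY
  set T := tr s y with hT
  have hT0 : 0 ≤ T := tr_nonneg s y
  set D := ∏ p ∈ U, lf (t p).card (nu (t p) p) p
  set S := sing s
  set m : ℝ := ((((bad s).filter (y < ·)).card : ℕ) : ℝ) with hm
  set k : ℝ := (s.card : ℝ) with hk
  have hk0 : 0 ≤ k := Nat.cast_nonneg _
  have h4 : 2 * k / y * m ≤ δ / 8 := by
    have h5 : 2 * k * (m * Real.log y) ≤ 2 * k * (3 * k ^ 2 * Real.log Y) := mul_le_mul_of_nonneg_left h3 (by positivity)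
    have h6 : (2 * k * m) * Real.log y ≤ (δ / 8 * y) * Real.log y := by nlinarith
    have h7 := le_of_mul_le_mul_right h6 hly
    rw [div_mul_eq_mul_div, div_le_iff₀ hy0]
    linarith
  have hexp : Real.exp (2 * k / y * m) ≤ 1 + δ / 4 := by
    calc Real.exp (2 * k / y * m) ≤ Real.exp (δ / 8) := Real.exp_le_exp.2 h4
      _ ≤ 1 + 2 * (δ / 8) := by
          have h := Real.abs_exp_sub_one_le (x := δ / 8) (by rw [abs_of_nonneg (by linarith)]; linarith)
          rw [abs_of_nonneg (show 0 ≤ δ / 8 by linarith)] at h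
          have := (le_abs_self _).trans h
          linarith
      _ = 1 + δ / 4 := by ring
  have c1 : (1 - δ / 4) * T ≤ D := (mul_le_mul_of_nonneg_right (by linarith) hT0).trans a1
  have c2 : D ≤ (1 + δ / 4) * T := a2.trans (mul_le_mul_of_nonneg_right hexp hT0)
  have c3 : (1 - δ / 4) * T ≤ S := (mul_le_mul_of_nonneg_right (by linarith) hT0).trans b1
  have c4 : S ≤ (1 + δ / 4) * T := b2.trans (mul_le_mul_of_nonneg_right hexp hT0)
  have hδ2 := mul_nonneg hT0 (mul_nonneg hδ.le (show 0 ≤ 1 - δ by linarith))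
  constructor
  · have : (1 - δ) * S ≤ (1 - δ) * ((1 + δ / 4) * T) := mul_le_mul_of_nonneg_left c4 (by linarith)
    nlinarith [mul_nonneg hT0 (sq_nonneg δ), mul_nonneg hT0 hδ.le]
  · have : (1 + δ) * ((1 - δ / 4) * T) ≤ (1 + δ) * S := mul_le_mul_of_nonneg_left c3 (by linarith)
    nlinarith [mul_nonneg hT0 (sq_nonneg δ), mul_nonneg hT0 hδ.le]

end Pool.Agent.N732.GL
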