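import Mathlib
import Pool.Agent.N732.GL.Sng
import Pool.Agent.N893.SM.Law

set_option autoImplicit false
set_option linter.unusedSectionVars false

/-! # The expected number for a system of linear forms: pieces with constant levels -/

open Filter Set
open scoped Topology

namespace Pool.Agent.N732.GL

open Pool.Agent.R528.RM Pool.Agent.N732.GS Pool.Agent.N732.GX
open Pool.Agent.N893.SM (val)

/-- the union of the sieving sets -/
def UU (P : ℕ → Finset ℕ) (s : Finset (ℕ × ℕ)) (J : ℕ × ℕ → ℕ) : Finset ℕ := s.biUnion fun f => P (J f)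

/-- the forms sieved by `p` -/
def sb (P : ℕ → Finset ℕ) (s : Finset (ℕ × ℕ)) (J : ℕ × ℕ → ℕ) (p : ℕ) : Finset (ℕ × ℕ) := s.filter fun f => p ∈ P (J f)

lemma res_range (s : Finset (ℕ × ℕ)) (p : ℕ) : res s p ⊆ Finset.range p := Finset.filter_subset _ _

lemma cop_iff {Q : Finset ℕ} (hQ : ∀ p ∈ Q, p.Prime) (m : ℕ) : Nat.Coprime m (∏ p ∈ Q, p) ↔ ∀ p ∈ Q, ¬ p ∣ m := by
  rw [Nat.coprime_prod_right_iff]
  refine forall₂_congr fun p hp => ?_
  rw [Nat.coprime_comm]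
  exact Nat.Prime.coprime_iff_not_dvd (hQ p hp)

lemma av_val {P : ℕ → Finset ℕ} (hP : ∀ j, ∀ p ∈ P j, p.Prime) (s : Finset (ℕ × ℕ)) (J : ℕ × ℕ → ℕ) (n : ℕ) :
    av (UU P s J) (fun p => res (sb P s J p) p) n ↔ ∀ f ∈ s, ∀ p ∈ P (J f), ¬ p ∣ val f n := by
  have key : ∀ (f : ℕ × ℕ) (p : ℕ), p ∣ f.1 * (n % p) + f.2 ↔ p ∣ f.1 * n + f.2 := by
    intro f p
    have h : f.1 * (n % p) + f.2 ≡ f.1 * n + f.2 [MOD p] := ((Nat.mod_modEq n p).mul_left _).add_right _
    exact h.dvd_iff (dvd_refl p)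
  unfold av
  constructor
  · intro H f hf p hp hd
    apply H p (Finset.mem_biUnion.2 ⟨f, hf, hp⟩)
    unfold res sb
    rw [Finset.mem_filter, Finset.mem_range]
    exact ⟨Nat.mod_lt _ (hP _ p hp).pos, f, Finset.mem_filter.2 ⟨hf, hp⟩, (key f p).2 hd⟩
  · intro H p _ hm
    unfold res sb at hm
    rw [Finset.mem_filter] at hm
    obtain ⟨_, f, hf, hd⟩ := hm
    rw [Finset.mem_filter] at hf
    exact H f hf.1 p hf.2 ((key f p).1 hd)

lemma prod_swap (P : ℕ → Finset ℕ) (s : Finset (ℕ × ℕ)) (J : ℕ × ℕ → ℕ) {α : Type} [CommMonoid α] (x : ℕ → α) :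
    ∏ f ∈ s, ∏ p ∈ P (J f), x p = ∏ p ∈ UU P s J, x p ^ (sb P s J p).card := by
  rw [Finset.prod_comm' (t' := UU P s J) (s' := sb P s J)]
  · exact Finset.prod_congr rfl fun p _ => Finset.prod_const _
  · intro f p
    unfold UU sb
    rw [Finset.mem_filter, Finset.mem_biUnion]
    constructor
    · rintro ⟨h1, h2⟩
      exact ⟨⟨h1, h2⟩, f, h1, h2⟩
    · rintro ⟨h1, _⟩
      exact h1

/-- `W / φ(W)` -/
noncomputable def cc (P : ℕ → Finset ℕ) (j : ℕ) : ℝ := ((∏ p ∈ P j, p : ℕ) : ℝ) / Nat.totient (∏ p ∈ P j, p)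

lemma UU_prime {P : ℕ → Finset ℕ} (hP : ∀ j, ∀ p ∈ P j, p.Prime) (s : Finset (ℕ × ℕ)) (J : ℕ × ℕ → ℕ) :
    ∀ p ∈ UU P s J, p.Prime := by
  intro p hp
  obtain ⟨f, _, h⟩ := Finset.mem_biUnion.1 hp
  exact hP _ p h

lemma dens_const {P : ℕ → Finset ℕ} (hP : ∀ j, ∀ p ∈ P j, p.Prime) (s : Finset (ℕ × ℕ)) (J : ℕ × ℕ → ℕ) :
    (∏ p ∈ UU P s J, (1 - ((res (sb P s J p) p).card : ℝ) / p)) * ∏ f ∈ s, cc P (J f) =
      ∏ p ∈ UU P s J, lf (sb P s J p).card (nu (sb P s J p) p) p := by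
  have h1 : ∏ f ∈ s, cc P (J f) = ∏ f ∈ s, ∏ p ∈ P (J f), (1 - 1 / (p : ℝ))⁻¹ :=
    Finset.prod_congr rfl fun f _ => totient_prod (P (J f)) (hP (J f))
  rw [h1, prod_swap, ← Finset.prod_mul_distrib]
  refine Finset.prod_congr rfl fun p _ => ?_
  unfold lf nu
  rw [inv_pow, ← div_eq_mul_inv]

lemma UU_le {P : ℕ → Finset ℕ} (hP : ∀ j, ∀ p ∈ P j, p.Prime) (s : Finset (ℕ × ℕ)) (J : ℕ × ℕ → ℕ) :
    ∏ p ∈ UU P s J, p ≤ ∏ f ∈ s, ∏ p ∈ P (J f), p := by
  rw [prod_swap P s J (fun p => p)]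
  refine Finset.prod_le_prod' fun p hp => ?_
  obtain ⟨f, hf, h⟩ := Finset.mem_biUnion.1 hp
  have h1 : 1 ≤ (sb P s J p).card := Finset.card_pos.2 ⟨f, Finset.mem_filter.2 ⟨hf, h⟩⟩
  calc p = p ^ 1 := (pow_one p).symm
    _ ≤ p ^ (sb P s J p).card := Nat.pow_le_pow_right (hP _ p h).pos h1

/-- the weight -/
noncomputable def gg (s : Finset (ℕ × ℕ)) (n : ℕ) : ℝ := ∏ f ∈ s, (Real.log (val f n))⁻¹

lemma gg_nonneg (s : Finset (ℕ × ℕ)) (n : ℕ) : 0 ≤ gg s n :=
  Finset.prod_nonneg fun _ _ => inv_nonneg.2 (Real.log_natCast_nonneg _)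

lemma cc_pos {P : ℕ → Finset ℕ} (hP : ∀ j, ∀ p ∈ P j, p.Prime) (j : ℕ) : 0 < cc P j := by
  have h : 0 < ∏ p ∈ P j, p := Finset.prod_pos fun q hq => (hP j q hq).pos
  exact div_pos (by exact_mod_cast h) (by exact_mod_cast Nat.totient_pos.2 h)

/-- one piece -/
lemma piece {P : ℕ → Finset ℕ} (hP : ∀ j, ∀ p ∈ P j, p.Prime) (s : Finset (ℕ × ℕ)) (J : ℕ × ℕ → ℕ) {u v j1 : ℕ} (huv : u ≤ v)
    (hJ : ∀ n ∈ Finset.Ico u v, ∀ f ∈ s, Nat.log 2 (val f n) = J f) (hj1 : 1 ≤ j1) (hJ1 : ∀ f ∈ s, j1 ≤ J f)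
    (hc : ∀ f ∈ s, cc P (J f) ≤ J f * Real.log 2) {e D₁ D₂ V : ℝ} (he : (1 + 1 / (j1 : ℝ)) ^ s.card ≤ e)
    (hD₁ : D₁ ≤ ∏ p ∈ UU P s J, lf (sb P s J p).card (nu (sb P s J p) p) p)
    (hD₂ : ∏ p ∈ UU P s J, lf (sb P s J p).card (nu (sb P s J p) p) p ≤ D₂)
    (hV : ((∏ f ∈ s, ∏ p ∈ P (J f), p : ℕ) : ℝ) ≤ V) :
    D₁ / e * (∑ n ∈ Finset.Ico u v, gg s n) - 2 * V ≤ ∑ n ∈ Finset.Ico u v, ∏ f ∈ s, rhoG P (val f n) ∧
    ∑ n ∈ Finset.Ico u v, ∏ f ∈ s, rhoG P (val f n) ≤ D₂ * e * (∑ n ∈ Finset.Ico u v, gg s n) + 2 * V := by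
  classical
  have hl2 : 0 < Real.log 2 := Real.log_pos (by norm_num)
  have hj1R : (1 : ℝ) ≤ j1 := by exact_mod_cast hj1
  have hJR : ∀ f ∈ s, (j1 : ℝ) ≤ J f := fun f hf => by exact_mod_cast hJ1 f hf
  have hJ0 : ∀ f ∈ s, (0 : ℝ) < J f := fun f hf => by linarith [hJR f hf]
  set R : ℕ → Finset ℕ := fun p => res (sb P s J p) p with hR
  set d := ∏ p ∈ UU P s J, (1 - ((R p).card : ℝ) / p) with hd
  set C := ∏ f ∈ s, cc P (J f) with hC
  have hC0 : 0 < C := Finset.prod_pos fun f _ => cc_pos hP _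
  set G1 := ∏ f ∈ s, ((J f : ℝ) * Real.log 2)⁻¹ with hG1
  set G0 := ∏ f ∈ s, (((J f : ℝ) + 1) * Real.log 2)⁻¹ with hG0
  have hG1p : 0 < G1 := Finset.prod_pos fun f hf => by
    have := hJ0 f hf
    positivity
  have hG0p : 0 < G0 := Finset.prod_pos fun f hf => by
    have := hJ0 f hf
    positivity
  have hG01 : G0 ≤ G1 := Finset.prod_le_prod (fun f hf => by
    have := hJ0 f hf
    positivity) fun f hf => by
    have := hJ0 f hf
    apply inv_anti₀ (by positivity)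
    nlinarith
  have hGe : G1 ≤ e * G0 := by
    have h1 : G1 ≤ ∏ f ∈ s, ((1 + 1 / (j1 : ℝ)) * (((J f : ℝ) + 1) * Real.log 2)⁻¹) := by
      refine Finset.prod_le_prod (fun f hf => by
        have := hJ0 f hf
        positivity) fun f hf => ?_
      have h2 := hJ0 f hf
      have h3 : ((J f : ℝ) * Real.log 2)⁻¹ = (1 + 1 / (J f : ℝ)) * (((J f : ℝ) + 1) * Real.log 2)⁻¹ := by
        field_simp
      rw [h3]
      apply mul_le_mul_of_nonneg_right _ (by positivity)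
      have : 1 / (J f : ℝ) ≤ 1 / j1 := one_div_le_one_div_of_le (by linarith) (hJR f hf)
      linarith
    rw [Finset.prod_mul_distrib, Finset.prod_const] at h1
    exact h1.trans (mul_le_mul_of_nonneg_right he hG0p.le)
  have he0 : 0 < e := lt_of_lt_of_le (by positivity) he
  have hCG : C * G1 ≤ 1 := by
    rw [hC, hG1, ← Finset.prod_mul_distrib]
    refine Finset.prod_le_one (fun f hf => by
      have := hJ0 f hf
      have := (cc_pos hP (J f)).le
      positivity) fun f hf => ?_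
    rw [← div_eq_mul_inv, div_le_one (by have := hJ0 f hf; positivity)]
    exact hc f hf
  have hCG0 : C * G0 ≤ 1 := (mul_le_mul_of_nonneg_left hG01 hC0.le).trans hCG
  -- logs
  have hlog : ∀ n ∈ Finset.Ico u v, ∀ f ∈ s, (J f : ℝ) * Real.log 2 ≤ Real.log (val f n) ∧ Real.log (val f n) ≤ ((J f : ℝ) + 1) * Real.log 2 := by
    intro n hn f hf
    have h1 := hJ n hn f hf
    have h2 : val f n ≠ 0 := by
      intro h0
      rw [h0, Nat.log_zero_right] at h1
      have := hJ1 f hf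
      omega
    have h3 : 2 ^ J f ≤ val f n := by
      rw [← h1]
      exact Nat.pow_log_le_self 2 h2
    have h4 : val f n < 2 ^ (J f + 1) := by
      rw [← h1]
      exact Nat.lt_pow_succ_log_self (by norm_num) _
    have h3' : ((2 : ℝ)) ^ J f ≤ val f n := by exact_mod_cast h3
    have h4' : (val f n : ℝ) ≤ 2 ^ (J f + 1) := by exact_mod_cast h4.le
    have h5 := Real.log_le_log (by positivity) h3'
    have h6 := Real.log_le_log (by exact_mod_cast Nat.pos_of_ne_zero h2) h4'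
    rw [Real.log_pow] at h5 h6
    push_cast at h6
    exact ⟨h5, h6⟩
  have hg1 : ∀ n ∈ Finset.Ico u v, gg s n ≤ G1 := fun n hn =>
    Finset.prod_le_prod (fun f _ => inv_nonneg.2 (Real.log_natCast_nonneg _)) fun f hf =>
      inv_anti₀ (by have := hJ0 f hf; positivity) (hlog n hn f hf).1
  have hg0 : ∀ n ∈ Finset.Ico u v, G0 ≤ gg s n := fun n hn =>
    Finset.prod_le_prod (fun f hf => by have := hJ0 f hf; positivity) fun f hf =>
      inv_anti₀ (lt_of_lt_of_le (by have := hJ0 f hf; positivity) (hlog n hn f hf).1) (hlog n hn f hf).2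
  -- the terms
  have hterm : ∀ n ∈ Finset.Ico u v, ∏ f ∈ s, rhoG P (val f n) = if av (UU P s J) R n then C * gg s n else 0 := by
    intro n hn
    split_ifs with hav
    · rw [hR, av_val hP] at hav
      rw [hC, gg, ← Finset.prod_mul_distrib]
      refine Finset.prod_congr rfl fun f hf => ?_
      unfold rhoG rhoW
      rw [hJ n hn f hf, if_pos ((cop_iff (hP (J f)) _).2 (hav f hf))]
      rw [← div_eq_mul_inv]
      apply min_eq_right
      have h1 := (hlog n hn f hf).1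
      have h2 := hJ0 f hf
      rw [div_le_one (lt_of_lt_of_le (by positivity) h1)]
      exact (hc f hf).trans h1
    · rw [hR, av_val hP] at hav
      push Not at hav
      obtain ⟨f, hf, p, hp, hd⟩ := hav
      refine Finset.prod_eq_zero hf ?_
      unfold rhoG rhoW
      rw [hJ n hn f hf, if_neg fun h => (cop_iff (hP (J f)) _).1 h p hp hd]
  have hI := abs_le.1 (av_Ico (UU P s J) (UU_prime hP s J) R (fun p _ => res_range _ p) huv)
  rw [← hd] at hI
  have hWV : ((∏ p ∈ UU P s J, p : ℕ) : ℝ) ≤ V := le_trans (by exact_mod_cast UU_le hP s J) hV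
  have hV0 : 0 ≤ V := (Nat.cast_nonneg _).trans hWV
  have hba : (0 : ℝ) ≤ (v : ℝ) - u := by
    have : (u : ℝ) ≤ v := by exact_mod_cast huv
    linarith
  have hDe : ∏ p ∈ UU P s J, lf (sb P s J p).card (nu (sb P s J p) p) p = d * C := (dens_const hP s J).symm
  rw [hDe] at hD₁ hD₂
  have hd0 : 0 ≤ d := by
    refine Finset.prod_nonneg fun p hp => ?_
    have h3 := Finset.card_le_card (res_range (sb P s J p) p)
    rw [Finset.card_range] at h3
    have hp0 : (0 : ℝ) < p := by exact_mod_cast (UU_prime hP s J p hp).pos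
    have : ((R p).card : ℝ) / p ≤ 1 := by
      rw [div_le_one hp0]
      exact_mod_cast h3
    linarith
  set E := ∑ n ∈ Finset.Ico u v, gg s n with hE
  have hE0 : 0 ≤ E := Finset.sum_nonneg fun n _ => gg_nonneg s n
  have hElow : ((v : ℝ) - u) * G0 ≤ E := by
    have h1 := Finset.card_nsmul_le_sum (Finset.Ico u v) (gg s) G0 hg0
    rw [Nat.card_Ico, nsmul_eq_mul, Nat.cast_sub huv] at h1
    exact h1
  have hEup : E ≤ ((v : ℝ) - u) * G1 := by
    have h1 := Finset.sum_le_card_nsmul (Finset.Ico u v) (gg s) G1 hg1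
    rw [Nat.card_Ico, nsmul_eq_mul, Nat.cast_sub huv] at h1
    exact h1
  rw [Finset.sum_congr rfl hterm]
  set M := ∑ n ∈ Finset.Ico u v, (if av (UU P s J) R n then (1 : ℝ) else 0) with hM
  have hM0 : 0 ≤ M := Finset.sum_nonneg fun n _ => by split_ifs <;> norm_num
  constructor
  · have h1 : C * G0 * M ≤ ∑ n ∈ Finset.Ico u v, (if av (UU P s J) R n then C * gg s n else 0) := by
      rw [hM, Finset.mul_sum]
      refine Finset.sum_le_sum fun n hn => ?_
      split_ifs with h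
      · rw [mul_one]
        exact mul_le_mul_of_nonneg_left (hg0 n hn) hC0.le
      · simp
    refine le_trans ?_ h1
    have h2 : C * G0 * (((v : ℝ) - u) * d - 2 * V) ≤ C * G0 * M :=
      mul_le_mul_of_nonneg_left (by linarith [hI.1]) (by positivity)
    refine le_trans ?_ h2
    have h3 : C * G0 * (2 * V) ≤ 1 * (2 * V) := mul_le_mul_of_nonneg_right hCG0 (by positivity)
    have h4 : E / e ≤ ((v : ℝ) - u) * G0 := by
      rw [div_le_iff₀ he0]
      calc E ≤ ((v : ℝ) - u) * G1 := hEup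
        _ ≤ ((v : ℝ) - u) * (e * G0) := mul_le_mul_of_nonneg_left hGe hba
        _ = _ := by ring
    have h5 : (d * C) * (E / e) ≤ (d * C) * (((v : ℝ) - u) * G0) := mul_le_mul_of_nonneg_left h4 (by positivity)
    have h6 : D₁ * (E / e) ≤ (d * C) * (E / e) := mul_le_mul_of_nonneg_right hD₁ (by positivity)
    have h7 : D₁ / e * E = D₁ * (E / e) := by ring
    rw [h7]
    nlinarith
  · have h1 : ∑ n ∈ Finset.Ico u v, (if av (UU P s J) R n then C * gg s n else 0) ≤ C * G1 * M := by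
      rw [hM, Finset.mul_sum]
      refine Finset.sum_le_sum fun n hn => ?_
      split_ifs with h
      · rw [mul_one]
        exact mul_le_mul_of_nonneg_left (hg1 n hn) hC0.le
      · simp
    refine h1.trans ?_
    have h2 : C * G1 * M ≤ C * G1 * (((v : ℝ) - u) * d + 2 * V) :=
      mul_le_mul_of_nonneg_left (by linarith [hI.2]) (by positivity)
    refine h2.trans ?_
    have h3 : C * G1 * (2 * V) ≤ 1 * (2 * V) := mul_le_mul_of_nonneg_right hCG (by positivity)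
    have h4 : ((v : ℝ) - u) * G1 ≤ e * E := by
      calc ((v : ℝ) - u) * G1 ≤ ((v : ℝ) - u) * (e * G0) := mul_le_mul_of_nonneg_left hGe hba
        _ = e * (((v : ℝ) - u) * G0) := by ring
        _ ≤ e * E := mul_le_mul_of_nonneg_left hElow he0.le
    have h5 : (d * C) * (((v : ℝ) - u) * G1) ≤ (d * C) * (e * E) := mul_le_mul_of_nonneg_left h4 (by positivity)
    have h6 : (d * C) * (e * E) ≤ D₂ * (e * E) := mul_le_mul_of_nonneg_right hD₂ (by positivity)
    nlinarith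

lemma val_mono (f : ℕ × ℕ) {m n : ℕ} (h : m ≤ n) : val f m ≤ val f n := by
  unfold val
  exact Nat.add_le_add_right (Nat.mul_le_mul_left _ h) _

/-- all pieces -/
lemma pieces {P : ℕ → Finset ℕ} (hP : ∀ j, ∀ p ∈ P j, p.Prime) (s : Finset (ℕ × ℕ)) {n0 x j1 j2 : ℕ} (hj1 : 1 ≤ j1)
    (hlev : ∀ n, n0 ≤ n → n < x → ∀ f ∈ s, j1 ≤ Nat.log 2 (val f n) ∧ Nat.log 2 (val f n) ≤ j2)
    (hc : ∀ j, j1 ≤ j → j ≤ j2 → cc P j ≤ j * Real.log 2) {e D₁ D₂ V : ℝ} (he : (1 + 1 / (j1 : ℝ)) ^ s.card ≤ e)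
    (hD : ∀ J : ℕ × ℕ → ℕ, (∀ f ∈ s, j1 ≤ J f ∧ J f ≤ j2) →
      D₁ ≤ ∏ p ∈ UU P s J, lf (sb P s J p).card (nu (sb P s J p) p) p ∧
      ∏ p ∈ UU P s J, lf (sb P s J p).card (nu (sb P s J p) p) p ≤ D₂)
    (hV : ∀ J : ℕ × ℕ → ℕ, (∀ f ∈ s, j1 ≤ J f ∧ J f ≤ j2) → ((∏ f ∈ s, ∏ p ∈ P (J f), p : ℕ) : ℝ) ≤ V) (hV0 : 0 ≤ V)
    (m : ℕ) : ∀ u v, n0 ≤ u → u ≤ v → v ≤ x → (∑ f ∈ s, Nat.log 2 (val f v)) ≤ m + ∑ f ∈ s, Nat.log 2 (val f u) →
    D₁ / e * (∑ n ∈ Finset.Ico u v, gg s n) - (m + 1) * (2 * V) ≤ ∑ n ∈ Finset.Ico u v, ∏ f ∈ s, rhoG P (val f n) ∧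
    ∑ n ∈ Finset.Ico u v, ∏ f ∈ s, rhoG P (val f n) ≤ D₂ * e * (∑ n ∈ Finset.Ico u v, gg s n) + (m + 1) * (2 * V) := by
  classical
  induction m with
  | zero =>
    intro u v hu huv hv hm
    rcases huv.eq_or_lt with h | h
    · subst h
      simp only [Finset.Ico_self, Finset.sum_empty, mul_zero, Nat.cast_zero, zero_add, one_mul]
      constructor <;> linarith
    have hconst : ∀ n ∈ Finset.Ico u v, ∀ f ∈ s, Nat.log 2 (val f n) = Nat.log 2 (val f u) := by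
      intro n hn f hf
      rw [Finset.mem_Ico] at hn
      by_contra hne
      have h1 : Nat.log 2 (val f u) ≤ Nat.log 2 (val f n) := Nat.log_mono_right (val_mono f hn.1)
      have h2 : ∑ g ∈ s, Nat.log 2 (val g u) < ∑ g ∈ s, Nat.log 2 (val g v) :=
        Finset.sum_lt_sum (fun g _ => Nat.log_mono_right (val_mono g huv))
          ⟨f, hf, lt_of_lt_of_le (lt_of_le_of_ne h1 (Ne.symm hne)) (Nat.log_mono_right (val_mono f hn.2.le))⟩
      omega
    have hlu := hlev u hu (by omega)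
    have h1 := piece hP s (fun f => Nat.log 2 (val f u)) huv hconst hj1 (fun f hf => (hlu f hf).1)
      (fun f hf => hc _ (hlu f hf).1 (hlu f hf).2) he (hD _ hlu).1 (hD _ hlu).2 (hV _ hlu)
    push_cast
    constructor <;> linarith [h1.1, h1.2]
  | succ m ih =>
    intro u v hu huv hv hm
    rcases huv.eq_or_lt with h | h
    · subst h
      simp only [Finset.Ico_self, Finset.sum_empty, mul_zero]
      have : 0 ≤ (((m + 1 : ℕ) : ℝ) + 1) * (2 * V) := by positivity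
      constructor <;> linarith
    have hlu := hlev u hu (by omega)
    by_cases hconst : ∀ n ∈ Finset.Ico u v, ∀ f ∈ s, Nat.log 2 (val f n) = Nat.log 2 (val f u)
    · have h1 := piece hP s (fun f => Nat.log 2 (val f u)) huv hconst hj1 (fun f hf => (hlu f hf).1)
        (fun f hf => hc _ (hlu f hf).1 (hlu f hf).2) he (hD _ hlu).1 (hD _ hlu).2 (hV _ hlu)
      have h2 : 2 * V ≤ (((m + 1 : ℕ) : ℝ) + 1) * (2 * V) := by
        have h3 : (0 : ℝ) ≤ ((m + 1 : ℕ) : ℝ) := Nat.cast_nonneg _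
        nlinarith
      constructor <;> linarith [h1.1, h1.2]
    · push Not at hconst
      obtain ⟨n, hn, f, hf, hne⟩ := hconst
      rw [Finset.mem_Ico] at hn
      have hex : ∃ w, u ≤ w ∧ ∃ f ∈ s, Nat.log 2 (val f w) ≠ Nat.log 2 (val f u) := ⟨n, hn.1, f, hf, hne⟩
      set w := Nat.find hex with hw
      obtain ⟨hw1, g, hg, hw2⟩ := Nat.find_spec hex
      rw [← hw] at hw1 hw2
      have hwn : w ≤ n := Nat.find_min' hex ⟨hn.1, f, hf, hne⟩
      have hwmin : ∀ n' ∈ Finset.Ico u w, ∀ f ∈ s, Nat.log 2 (val f n') = Nat.log 2 (val f u) := by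
        intro n' hn' f' hf'
        rw [Finset.mem_Ico] at hn'
        by_contra hcon
        exact Nat.find_min hex hn'.2 ⟨hn'.1, f', hf', hcon⟩
      have h1 := piece hP s (fun f => Nat.log 2 (val f u)) hw1 hwmin hj1 (fun f hf => (hlu f hf).1)
        (fun f hf => hc _ (hlu f hf).1 (hlu f hf).2) he (hD _ hlu).1 (hD _ hlu).2 (hV _ hlu)
      have h2 : ∑ f ∈ s, Nat.log 2 (val f u) < ∑ f ∈ s, Nat.log 2 (val f w) :=
        Finset.sum_lt_sum (fun f' _ => Nat.log_mono_right (val_mono f' hw1))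
          ⟨g, hg, lt_of_le_of_ne (Nat.log_mono_right (val_mono g hw1)) (Ne.symm hw2)⟩
      have h3 := ih w v (by omega) (by omega) hv (by omega)
      rw [← Finset.sum_Ico_consecutive _ hw1 (show w ≤ v by omega), ← Finset.sum_Ico_consecutive _ hw1 (show w ≤ v by omega),
        mul_add, mul_add]
      push_cast
      constructor <;> nlinarith [h1.1, h1.2, h3.1, h3.2]

end Pool.Agent.N732.GL
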