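import Mathlib
import Pool.Agent.N732.GL.Piece

set_option autoImplicit false
set_option linter.unusedSectionVars false

/-! # The expected number for a system of linear forms: asymptotics -/

open Filter Set
open scoped Topology

namespace Pool.Agent.N732.GL

open Pool.Agent.R528.RM Pool.Agent.N732.GS Pool.Agent.N732.GX
open Pool.Agent.N893.SM (val EF)

lemma val_bounds {s : Finset (ℕ × ℕ)} {Y n : ℕ} (hs : s ⊆ Finset.Icc 1 Y ×ˢ Finset.Icc 1 Y) (hn : n ≤ Y) {f : ℕ × ℕ} (hf : f ∈ s) :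
    n + 1 ≤ val f n ∧ val f n ≤ 2 * Y ^ 2 := by
  have h := Finset.mem_product.1 (hs hf)
  have h1 := Finset.mem_Icc.1 h.1
  have h2 := Finset.mem_Icc.1 h.2
  unfold val
  constructor
  · have : 1 * n ≤ f.1 * n := Nat.mul_le_mul_right n h1.1
    omega
  · have e1 : f.1 * n ≤ Y * Y := Nat.mul_le_mul h1.2 hn
    have e2 : Y ≤ Y * Y := Nat.le_mul_self Y
    have e3 : Y ^ 2 = Y * Y := sq Y
    omega

lemma gg_lower {s : Finset (ℕ × ℕ)} {Y x : ℕ} (hY : 2 ≤ Y) (hs : s ⊆ Finset.Icc 1 Y ×ˢ Finset.Icc 1 Y) (hx : x ≤ Y) (hx1 : 1 ≤ x) :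
    1 / (3 * Real.log Y) ^ s.card ≤ gg s x := by
  have hYR : (2 : ℝ) ≤ Y := by exact_mod_cast hY
  have hlY : 0 < Real.log (Y : ℝ) := Real.log_pos (by linarith)
  unfold gg
  rw [one_div, ← inv_pow, ← Finset.prod_const]
  refine Finset.prod_le_prod (fun f _ => by positivity) fun f hf => ?_
  obtain ⟨h1, h2⟩ := val_bounds hs hx hf
  have h3 : (1 : ℝ) < val f x := by exact_mod_cast (by omega : 1 < val f x)
  apply inv_anti₀ (Real.log_pos h3)
  have h4 : (val f x : ℝ) ≤ 2 * (Y : ℝ) ^ 2 := by exact_mod_cast h2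
  have h5 := Real.log_le_log (by linarith) h4
  rw [Real.log_mul (by norm_num) (by positivity), Real.log_pow] at h5
  have h6 := Real.log_le_log (by norm_num) hYR
  push_cast at h5
  linarith

/-- the main term is large -/
lemma big (k : ℕ) {θ : ℝ} (hθ : 0 < θ) (B : ℝ) : ∀ᶠ Y : ℕ in atTop, ∀ x : ℕ, (Y : ℝ) ^ θ ≤ x → x ≤ Y →
    ∀ s : Finset (ℕ × ℕ), s ⊆ Finset.Icc 1 Y ×ˢ Finset.Icc 1 Y → s.card = k → Adm s →
    B * (Real.log Y * (Y : ℝ) ^ (θ / 2)) ≤ sing s * (x * gg s x) ∧ B * (Real.log Y * (Y : ℝ) ^ (θ / 2)) ≤ x * gg s x := by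
  obtain ⟨c, hc0, hc⟩ := sing_lower k
  obtain ⟨c', hc'0, hc'c, hc'1⟩ : ∃ c' : ℝ, 0 < c' ∧ c' ≤ c ∧ c' ≤ 1 := ⟨min c 1, lt_min hc0 one_pos, min_le_left _ _, min_le_right _ _⟩
  obtain ⟨B', hB'0, hB'⟩ : ∃ B' : ℝ, 0 < B' ∧ B ≤ B' := ⟨|B| + 1, by positivity, by linarith [le_abs_self B]⟩
  have hsmall : ∀ᶠ Y : ℕ in atTop, B' * 3 ^ k * Real.log (Y : ℝ) ^ (k + 1) ≤ c' * (Y : ℝ) ^ (θ / 2) := by
    have h1 := (isLittleO_log_rpow_rpow_atTop ((k : ℝ) + 1) (show (0 : ℝ) < θ / 2 by positivity)).def (show 0 < c' / (B' * 3 ^ k) by positivity)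
    filter_upwards [tendsto_natCast_atTop_atTop.eventually h1, eventually_ge_atTop 1] with Y hY hY1
    have hY1' : (1 : ℝ) ≤ Y := by exact_mod_cast hY1
    rw [Real.norm_of_nonneg (Real.rpow_nonneg (Real.log_nonneg hY1') _), Real.norm_of_nonneg (Real.rpow_nonneg (by linarith) _)] at hY
    have h5 : Real.log (Y : ℝ) ^ ((k : ℝ) + 1) = Real.log Y ^ (k + 1) := by
      rw [← Real.rpow_natCast]
      push_cast
      rfl
    rw [h5, div_mul_eq_mul_div, le_div_iff₀ (by positivity)] at hY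
    linarith
  filter_upwards [hsmall, eventually_ge_atTop 2] with Y h1 hY x hx1 hx2 s hs hsk hadm
  have hYR : (2 : ℝ) ≤ Y := by exact_mod_cast hY
  have hlY : 0 < Real.log (Y : ℝ) := Real.log_pos (by linarith)
  have hx0 : (0 : ℝ) < x := lt_of_lt_of_le (Real.rpow_pos_of_pos (by linarith) _) hx1
  have hx1' : 1 ≤ x := by exact_mod_cast hx0
  have h2 := gg_lower hY hs hx2 hx1'
  rw [hsk] at h2
  have hS : c' ≤ sing s := hc'c.trans (hc s hsk hadm fun f hf => (Finset.mem_Icc.1 (Finset.mem_product.1 (hs hf)).1).1)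
  have hpY : 0 ≤ (Y : ℝ) ^ (θ / 2) := Real.rpow_nonneg (by linarith) _
  have hsplit : (Y : ℝ) ^ θ = (Y : ℝ) ^ (θ / 2) * (Y : ℝ) ^ (θ / 2) := by
    rw [← Real.rpow_add (by linarith)]
    congr 1
    ring
  have hg0 : 0 ≤ gg s x := gg_nonneg s x
  have key : B * (Real.log Y * (Y : ℝ) ^ (θ / 2)) ≤ c' * (x * gg s x) := by
    have e1 : B * (Real.log Y * (Y : ℝ) ^ (θ / 2)) ≤ B' * (Real.log Y * (Y : ℝ) ^ (θ / 2)) :=
      mul_le_mul_of_nonneg_right hB' (by positivity)
    have e2 : B' * (Real.log Y * (Y : ℝ) ^ (θ / 2)) * (3 * Real.log Y) ^ k ≤ c' * (Y : ℝ) ^ θ := by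
      rw [hsplit]
      have e3 := mul_le_mul_of_nonneg_right h1 hpY
      calc B' * (Real.log Y * (Y : ℝ) ^ (θ / 2)) * (3 * Real.log Y) ^ k =
          B' * 3 ^ k * Real.log (Y : ℝ) ^ (k + 1) * (Y : ℝ) ^ (θ / 2) := by
            rw [mul_pow, pow_succ]; ring
        _ ≤ _ := e3
        _ = _ := by ring
    have e4 : c' * (Y : ℝ) ^ θ ≤ c' * x := mul_le_mul_of_nonneg_left hx1 hc'0.le
    have e5 : B' * (Real.log Y * (Y : ℝ) ^ (θ / 2)) ≤ c' * x * (1 / (3 * Real.log Y) ^ k) := by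
      rw [mul_one_div, le_div_iff₀ (by positivity)]
      linarith
    have e6 : c' * x * (1 / (3 * Real.log Y) ^ k) ≤ c' * x * gg s x := mul_le_mul_of_nonneg_left h2 (by positivity)
    calc _ ≤ _ := e1
      _ ≤ _ := e5
      _ ≤ _ := e6
      _ = _ := by ring
  constructor
  · exact key.trans (mul_le_mul_of_nonneg_right hS (by positivity))
  · refine key.trans ?_
    have := mul_le_mul_of_nonneg_right hc'1 (show 0 ≤ x * gg s x by positivity)
    linarith

/-- the sum of the weights -/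
lemma gg_sum {s : Finset (ℕ × ℕ)} {n0 x Λ : ℕ} (hs : ∀ f ∈ s, 1 ≤ f.1 ∧ 1 ≤ f.2) (hn0 : 3 ≤ n0) (hx : n0 ≤ x) (hΛ : 1 ≤ Λ) {δ : ℝ}
    (_hδ : 0 < δ) (hδ1 : δ ≤ 1 / 2) (hlog : Real.log Λ ≤ δ * Real.log x) :
    ((x : ℝ) - n0) * gg s x ≤ ∑ n ∈ Finset.Ico n0 x, gg s n ∧
    ∑ n ∈ Finset.Ico n0 x, gg s n ≤ (x : ℝ) / Λ + 1 + ((1 - δ)⁻¹) ^ s.card * (x * gg s x) := by
  classical
  have hvn : ∀ f ∈ s, ∀ n, n ≤ val f n := by
    intro f hf n
    unfold val
    have : 1 * n ≤ f.1 * n := Nat.mul_le_mul_right n (hs f hf).1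
    omega
  have hΛR : (1 : ℝ) ≤ Λ := by exact_mod_cast hΛ
  have hlogv : ∀ f ∈ s, ∀ n, n0 ≤ n → 1 ≤ Real.log (val f n) := by
    intro f hf n hn
    have h1 := hvn f hf n
    have h2 : (3 : ℝ) ≤ val f n := by exact_mod_cast (by omega : 3 ≤ val f n)
    rw [Real.le_log_iff_exp_le (by linarith)]
    have := Real.exp_one_lt_d9
    linarith
  constructor
  · have h1 : ∀ n ∈ Finset.Ico n0 x, gg s x ≤ gg s n := by
      intro n hn
      rw [Finset.mem_Ico] at hn
      refine Finset.prod_le_prod (fun f _ => inv_nonneg.2 (Real.log_natCast_nonneg _)) fun f hf => ?_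
      have h2 := hlogv f hf n hn.1
      apply inv_anti₀ (by linarith)
      apply Real.log_le_log
      · have := hvn f hf n
        exact_mod_cast (by omega : 0 < val f n)
      · exact_mod_cast val_mono f hn.2.le
    have h2 := Finset.card_nsmul_le_sum (Finset.Ico n0 x) (gg s) (gg s x) h1
    rw [Nat.card_Ico, nsmul_eq_mul, Nat.cast_sub hx] at h2
    exact h2
  · set n1 := x / Λ + 1 with hn1
    set C := ((1 - δ)⁻¹) ^ s.card with hC
    have hC0 : 0 ≤ C := pow_nonneg (inv_nonneg.2 (by linarith)) _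
    have hg0 := gg_nonneg s x
    have hpt : ∀ n ∈ Finset.Ico n0 x, gg s n ≤ (if n < n1 then (1 : ℝ) else 0) + C * gg s x := by
      intro n hn
      rw [Finset.mem_Ico] at hn
      by_cases hlt : n < n1
      · rw [if_pos hlt]
        have h1 : gg s n ≤ 1 := Finset.prod_le_one (fun f _ => inv_nonneg.2 (Real.log_natCast_nonneg _)) fun f hf =>
          inv_le_one_of_one_le₀ (hlogv f hf n hn.1)
        have h2 : 0 ≤ C * gg s x := by positivity
        linarith
      · rw [if_neg hlt, zero_add, hC, ← Finset.prod_const]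
        unfold gg
        rw [← Finset.prod_mul_distrib]
        refine Finset.prod_le_prod (fun f _ => inv_nonneg.2 (Real.log_natCast_nonneg _)) fun f hf => ?_
        have hxn : x < n * Λ := by
          have h1 : x < (x / Λ + 1) * Λ := by
            rw [add_mul, one_mul]
            exact Nat.lt_div_mul_add (by omega)
          exact lt_of_lt_of_le h1 (Nat.mul_le_mul_right Λ (by omega))
        have h2 : val f x ≤ val f n * Λ := by
          unfold val
          have e1 : f.1 * x ≤ f.1 * (n * Λ) := Nat.mul_le_mul_left _ hxn.le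
          have e2 : f.2 * 1 ≤ f.2 * Λ := Nat.mul_le_mul_left _ hΛ
          calc f.1 * x + f.2 ≤ f.1 * (n * Λ) + f.2 * Λ := by omega
            _ = _ := by ring
        have hv := hlogv f hf n hn.1
        have hvx := hlogv f hf x hx
        have hvp : (0 : ℝ) < val f n := by
          have := hvn f hf n
          exact_mod_cast (by omega : 0 < val f n)
        have hvxp : (0 : ℝ) < val f x := by
          have := hvn f hf x
          exact_mod_cast (by omega : 0 < val f x)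
        have h3 : (val f x : ℝ) ≤ val f n * Λ := by exact_mod_cast h2
        have h4 := Real.log_le_log hvxp h3
        rw [Real.log_mul hvp.ne' (by linarith)] at h4
        have h5 : Real.log x ≤ Real.log (val f x) := by
          apply Real.log_le_log (by exact_mod_cast (by omega : 0 < x))
          exact_mod_cast hvn f hf x
        have h6 : (1 - δ) * Real.log (val f x) ≤ Real.log (val f n) := by
          have : δ * Real.log x ≤ δ * Real.log (val f x) := mul_le_mul_of_nonneg_left h5 _hδ.le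
          linarith
        rw [← mul_inv]
        exact inv_anti₀ (mul_pos (by linarith) (by linarith)) h6
    refine (Finset.sum_le_sum hpt).trans ?_
    rw [Finset.sum_add_distrib, Finset.sum_const, Nat.card_Ico, nsmul_eq_mul, Finset.sum_boole]
    have h1 : ((Finset.Ico n0 x).filter (fun n => n < n1)).card ≤ n1 := by
      have : (Finset.Ico n0 x).filter (fun n => n < n1) ⊆ Finset.range n1 := by
        intro n hn
        rw [Finset.mem_filter] at hn
        exact Finset.mem_range.2 hn.2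
      have := Finset.card_le_card this
      rwa [Finset.card_range] at this
    have h2 : (((Finset.Ico n0 x).filter (fun n => n < n1)).card : ℝ) ≤ n1 := by exact_mod_cast h1
    have h3 : (n1 : ℝ) ≤ x / Λ + 1 := by
      rw [hn1]
      push_cast
      have := @Nat.cast_div_le ℝ _ _ _ x Λ
      linarith
    have h4 : ((x - n0 : ℕ) : ℝ) ≤ x := by exact_mod_cast Nat.sub_le x n0
    have h5 : ((x - n0 : ℕ) : ℝ) * (C * gg s x) ≤ x * (C * gg s x) := mul_le_mul_of_nonneg_right h4 (by positivity)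
    calc _ ≤ ((x : ℝ) / Λ + 1) + x * (C * gg s x) := add_le_add (h2.trans h3) h5
      _ = _ := by ring

end Pool.Agent.N732.GL
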