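import Mathlib
import Pool.Agent.N732.GL.Asym

set_option autoImplicit false
set_option linter.unusedSectionVars false

/-! # All systems of linear forms in models with a growing sieve -/

open MeasureTheory Filter Set
open scoped Topology ENNReal

namespace Pool.Agent.N732.GL

open Pool.Agent.R528.RM Pool.Agent.N732.GS Pool.Agent.N732.GX
open Pool.Agent.N893.SM (val EF TF)

lemma y_large' {y : ℕ → ℕ} (hy : Tendsto (fun j : ℕ => (y j : ℝ) * Real.log (y j) / j) atTop atTop) :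
    Tendsto (fun j : ℕ => (y j : ℝ)) atTop atTop := by
  have h1 : Tendsto (fun j : ℕ => √(j : ℝ)) atTop atTop := Real.tendsto_sqrt_atTop.comp tendsto_natCast_atTop_atTop
  refine tendsto_atTop_mono' atTop ?_ h1
  filter_upwards [hy.eventually_ge_atTop 1, eventually_ge_atTop 1] with j hj hj1
  have hj0 : (0 : ℝ) < j := by exact_mod_cast hj1
  rw [le_div_iff₀ hj0, one_mul] at hj
  have hy0 : (0 : ℝ) ≤ y j := Nat.cast_nonneg _
  have h2 : Real.log (y j) ≤ y j := by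
    rcases hy0.eq_or_lt with h | h
    · rw [← h]; simp
    · have := Real.log_le_sub_one_of_pos h
      linarith
  have h3 : (y j : ℝ) * Real.log (y j) ≤ (y j : ℝ) * y j := mul_le_mul_of_nonneg_left h2 hy0
  rw [Real.sqrt_le_left hy0, sq]
  linarith

lemma choose_delta (k : ℕ) {ε : ℝ} (hε : 0 < ε) : ∃ δ : ℝ, 0 < δ ∧ δ ≤ 1 / 2 ∧
    (1 + δ) ^ 2 * (δ + ((1 - δ)⁻¹) ^ k) + δ ≤ 1 + ε ∧ 1 - ε ≤ (1 - δ) ^ 2 / (1 + δ) - δ := by
  have c1 : ContinuousAt (fun δ : ℝ => (1 + δ) ^ 2 * (δ + ((1 - δ)⁻¹) ^ k) + δ) 0 := by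
    fun_prop (disch := norm_num)
  have c2 : ContinuousAt (fun δ : ℝ => (1 - δ) ^ 2 / (1 + δ) - δ) 0 := by
    fun_prop (disch := norm_num)
  have e1 := c1.eventually (gt_mem_nhds (show (1 + (0 : ℝ)) ^ 2 * (0 + ((1 - 0)⁻¹) ^ k) + 0 < 1 + ε by simp [hε]))
  have e2 := c2.eventually (lt_mem_nhds (show 1 - ε < (1 - (0 : ℝ)) ^ 2 / (1 + 0) - 0 by simp [hε]))
  have e3 : ∀ᶠ δ : ℝ in 𝓝[>] 0, (1 + δ) ^ 2 * (δ + ((1 - δ)⁻¹) ^ k) + δ < 1 + ε ∧ 1 - ε < (1 - δ) ^ 2 / (1 + δ) - δ :=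
    nhdsWithin_le_nhds (e1.and e2)
  obtain ⟨δ, ⟨h1, h2⟩, h3⟩ := (e3.and (Ioc_mem_nhdsGT (show (0 : ℝ) < 1 / 2 by norm_num))).exists
  exact ⟨δ, h3.1, h3.2, h1.le, h2.le⟩

lemma tendsto_natlog : Tendsto (fun Y : ℕ => Nat.log 2 Y) atTop atTop :=
  tendsto_atTop.2 fun b => eventually_atTop.2 ⟨2 ^ b, fun _ hY => Nat.le_log_of_pow_le (by norm_num) hY⟩

/-- the final inequalities -/
lemma assemble {δ ε S X EF E n0 err C : ℝ} (hδ0 : 0 < δ) (hδ1 : δ ≤ 1 / 2) (hS : 0 ≤ S) (_hX : 0 ≤ X)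
    (h1 : (1 + δ) ^ 2 * (δ + C) + δ ≤ 1 + ε) (h2 : 1 - ε ≤ (1 - δ) ^ 2 / (1 + δ) - δ)
    (he1 : (1 - δ) * X ≤ E) (he2 : E ≤ (δ + C) * X) (hn0 : 0 ≤ n0)
    (hl : (1 - δ) * S / (1 + δ) * E - err ≤ EF) (hu : EF ≤ n0 + ((1 + δ) * S * (1 + δ) * E + err)) (herr : n0 + err ≤ δ * (S * X)) :
    |EF - S * X| ≤ ε * (S * X) := by
  have hSX : 0 ≤ S * X := mul_nonneg hS _hX
  rw [abs_le]
  constructor
  · have g1 : (1 - δ) * S / (1 + δ) * ((1 - δ) * X) ≤ (1 - δ) * S / (1 + δ) * E := by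
      apply mul_le_mul_of_nonneg_left he1
      apply div_nonneg (mul_nonneg (by linarith) hS) (by linarith)
    have g2 : (1 - δ) * S / (1 + δ) * ((1 - δ) * X) = (1 - δ) ^ 2 / (1 + δ) * (S * X) := by
      field_simp
    have g3 := mul_le_mul_of_nonneg_right h2 hSX
    nlinarith
  · have g1 : (1 + δ) * S * (1 + δ) * E ≤ (1 + δ) * S * (1 + δ) * ((δ + C) * X) := by
      apply mul_le_mul_of_nonneg_left he2
      positivity
    have g2 : (1 + δ) * S * (1 + δ) * ((δ + C) * X) = (1 + δ) ^ 2 * (δ + C) * (S * X) := by ring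
    have g3 := mul_le_mul_of_nonneg_right h1 hSX
    nlinarith

theorem EF_asymp (P : ℕ → Finset ℕ) (hP : ∀ j, ∀ p ∈ P j, p.Prime)
    (hW : Tendsto (fun j : ℕ => Real.log (∏ p ∈ P j, p : ℕ) / j) atTop (𝓝 0))
    (y : ℕ → ℕ) (hy : Tendsto (fun j : ℕ => (y j : ℝ) * Real.log (y j) / j) atTop atTop)
    (hPy : ∀ᶠ j : ℕ in atTop, ∀ p : ℕ, p.Prime → p ≤ y j → p ∈ P j) {k : ℕ} (hk : 1 ≤ k) {ε θ : ℝ} (hε : 0 < ε) (hθ : 0 < θ) :
    ∀ᶠ Y : ℕ in atTop, ∀ x : ℕ, (Y : ℝ) ^ θ ≤ x → x ≤ Y → ∀ s : Finset (ℕ × ℕ), s ⊆ Finset.Icc 1 Y ×ˢ Finset.Icc 1 Y →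
      s.card = k → Adm s → |EF (rhoG P) s x - sing s * (x * gg s x)| ≤ ε * (sing s * (x * gg s x)) := by
  classical
  have hl2 : 0 < Real.log 2 := Real.log_pos (by norm_num)
  have hl2a : Real.log 2 ≤ 1 := by have := Real.log_two_lt_d9; linarith
  have hl2b : 1 / 2 ≤ Real.log 2 := by have := Real.log_two_gt_d9; linarith
  obtain ⟨δ, hδ0, hδ1, hδa, hδb⟩ := choose_delta k hε
  have hkR : (1 : ℝ) ≤ k := by exact_mod_cast hk
  obtain ⟨κ, hκ0, hκ1, hκθ⟩ : ∃ κ : ℝ, 0 < κ ∧ κ ≤ 1 / 4 ∧ k * κ ≤ θ / 16 := by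
    refine ⟨min (θ / (16 * k)) (1 / 4), lt_min (by positivity) (by norm_num), min_le_right _ _, ?_⟩
    calc (k : ℝ) * min (θ / (16 * k)) (1 / 4) ≤ k * (θ / (16 * k)) := mul_le_mul_of_nonneg_left (min_le_left _ _) (by positivity)
      _ = θ / 16 := by field_simp
  obtain ⟨M1, hM1a, hM1b, hM1c, hM1d⟩ : ∃ M1 : ℝ, 8 * (k : ℝ) ^ 2 / δ ≤ M1 ∧ 2 * (k : ℝ) ^ 2 ≤ M1 ∧ 2 * (k : ℝ) ≤ M1 ∧ 2 ≤ M1 := by
    refine ⟨8 * (k : ℝ) ^ 2 / δ + 2 * (k : ℝ) ^ 2 + 2 * k + 2, ?_, ?_, ?_, ?_⟩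
    all_goals
      have g1 : 0 ≤ 8 * (k : ℝ) ^ 2 / δ := by positivity
      have g2 : 0 ≤ 2 * (k : ℝ) ^ 2 := by positivity
      linarith
  obtain ⟨M2, hM2⟩ : ∃ M2 : ℝ, M2 = 12 * (k : ℝ) ^ 3 * 32 / (δ * θ) := ⟨_, rfl⟩
  have hM20 : 0 ≤ M2 := by rw [hM2]; positivity
  -- blocks
  have hblock : ∀ᶠ j : ℕ in atTop, Real.log (∏ p ∈ P j, p : ℕ) ≤ κ * Real.log 2 * j ∧ M1 ≤ (y j : ℝ) ∧
      M2 * j ≤ (y j : ℝ) * Real.log (y j) ∧ (∀ p : ℕ, p.Prime → p ≤ y j → p ∈ P j) ∧ (1 + 1 / (j : ℝ)) ^ k ≤ 1 + δ := by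
    have t1 : Tendsto (fun j : ℕ => (1 + 1 / (j : ℝ)) ^ k) atTop (𝓝 ((1 + 0) ^ k)) :=
      (tendsto_const_nhds.add (tendsto_const_div_atTop_nhds_zero_nat 1)).pow k
    rw [add_zero, one_pow] at t1
    filter_upwards [hW.eventually (gt_mem_nhds (show (0 : ℝ) < κ * Real.log 2 by positivity)), (y_large' hy).eventually_ge_atTop M1,
      hy.eventually_ge_atTop M2, hPy, t1.eventually (gt_mem_nhds (show (1 : ℝ) < 1 + δ by linarith)), eventually_ge_atTop 1] with j h1 h2 h3 h4 h5 h6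
    have hj0 : (0 : ℝ) < j := by exact_mod_cast h6
    rw [div_lt_iff₀ hj0] at h1
    rw [le_div_iff₀ hj0] at h3
    exact ⟨h1.le, h2, h3, h4, h5.le⟩
  obtain ⟨J0, hJ0⟩ := eventually_atTop.1 hblock
  -- conditions on `L`
  have hL : ∀ᶠ L : ℕ in atTop, 4 * ((J0 : ℝ) + 5) ≤ θ * L ∧ 2 * 6 ^ k / δ ≤ (L : ℝ) ∧ (k + 1 : ℝ) * Real.log L ≤ δ * θ / 2 * L ∧ 2 ≤ L := by
    have t1 : Tendsto (fun L : ℕ => θ * (L : ℝ)) atTop atTop := tendsto_natCast_atTop_atTop.const_mul_atTop hθ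
    have t2 := (Real.isLittleO_log_id_atTop).def (show 0 < δ * θ / 2 / (k + 1) by positivity)
    filter_upwards [t1.eventually_ge_atTop (4 * ((J0 : ℝ) + 5)), tendsto_natCast_atTop_atTop.eventually_ge_atTop (2 * 6 ^ k / δ),
      tendsto_natCast_atTop_atTop.eventually t2, eventually_ge_atTop 2] with L h1 h2 h3 h4
    refine ⟨h1, h2, ?_, h4⟩
    have hL1 : (1 : ℝ) ≤ L := by exact_mod_cast (by omega : 1 ≤ L)
    rw [id, Real.norm_of_nonneg (Real.log_nonneg hL1), Real.norm_of_nonneg (by linarith)] at h3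
    calc (k + 1 : ℝ) * Real.log L ≤ (k + 1) * (δ * θ / 2 / (k + 1) * L) := mul_le_mul_of_nonneg_left h3 (by positivity)
      _ = _ := by field_simp
  have hYθ : Tendsto (fun Y : ℕ => (Y : ℝ) ^ (θ / 2)) atTop atTop :=
    (tendsto_rpow_atTop (by positivity)).comp tendsto_natCast_atTop_atTop
  filter_upwards [tendsto_natlog.eventually hL, big k hθ ((16 * k + 3) / δ + 2 / δ), hYθ.eventually_ge_atTop (1 / δ),
    tendsto_log.eventually_ge_atTop 1, eventually_ge_atTop 2] with Y hLY hbig hY1 hY2 hY3 x hx1 hx2 s hs hsk hadm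
  obtain ⟨hb1, hb2⟩ := hbig x hx1 hx2 s hs hsk hadm
  have hYR : (2 : ℝ) ≤ Y := by exact_mod_cast hY3
  set V : ℝ := (Y : ℝ) ^ (θ / 2) with hV
  have hV1 : 1 ≤ V := le_trans (by rw [le_div_iff₀ hδ0]; linarith) hY1
  have hYsplit : (Y : ℝ) ^ θ = V * V := by
    rw [hV, ← Real.rpow_add (by linarith)]
    congr 1
    ring
  obtain ⟨hL1, hL2, hL3, hL4⟩ := hLY
  have hlo : 2 ^ Nat.log 2 Y ≤ Y := Nat.pow_log_le_self 2 (by omega)
  have hhi : Y < 2 ^ (Nat.log 2 Y + 1) := Nat.lt_pow_succ_log_self (by norm_num) _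
  have hvlev : ∀ v : ℕ, v ≠ 0 → v ≤ 2 * Y ^ 2 → Nat.log 2 v ≤ 2 * Nat.log 2 Y + 2 := by
    intro v hv hv2
    have h1 : v < 2 ^ (2 * Nat.log 2 Y + 3) := by
      have h2 : Y ^ 2 < (2 ^ (Nat.log 2 Y + 1)) ^ 2 := Nat.pow_lt_pow_left hhi (by norm_num)
      have h3 : 2 ^ (2 * Nat.log 2 Y + 3) = 2 * (2 ^ (Nat.log 2 Y + 1)) ^ 2 := by
        rw [← pow_mul, ← pow_succ']
        congr 1
        ring
      rw [h3]
      omega
    have := Nat.log_lt_of_lt_pow hv h1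
    omega
  have hlogY1 : (Nat.log 2 Y : ℝ) * Real.log 2 ≤ Real.log Y := by
    have h1 : ((2 : ℝ)) ^ Nat.log 2 Y ≤ Y := by exact_mod_cast hlo
    have h2 := Real.log_le_log (by positivity) h1
    rwa [Real.log_pow] at h2
  have hlogY2 : Real.log Y ≤ ((Nat.log 2 Y : ℝ) + 1) * Real.log 2 := by
    have h1 : (Y : ℝ) ≤ (2 : ℝ) ^ (Nat.log 2 Y + 1) := by exact_mod_cast hhi.le
    have h2 := Real.log_le_log (by linarith) h1
    rw [Real.log_pow] at h2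
    push_cast at h2
    exact h2
  clear hlo hhi
  set L := Nat.log 2 Y with hLdef
  have hLR : (2 : ℝ) ≤ L := by exact_mod_cast hL4
  have hLY2 : (L : ℝ) ≤ 2 * Real.log Y := by nlinarith
  have hlogY3 : Real.log Y ≤ 2 * L := by nlinarith
  -- `j1`
  obtain ⟨j1, hj1a, hj1b⟩ : ∃ j1 : ℕ, (j1 : ℝ) ≤ θ / 2 * L ∧ θ / 4 * L ≤ j1 := by
    refine ⟨⌊θ / 2 * L⌋₊, Nat.floor_le (by positivity), ?_⟩
    have h1 := Nat.lt_floor_add_one (θ / 2 * (L : ℝ))
    have h2 : (0 : ℝ) ≤ J0 := Nat.cast_nonneg _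
    linarith
  have hj1c : J0 + 5 ≤ j1 := by
    have h1 : ((J0 + 5 : ℕ) : ℝ) ≤ j1 := by
      push_cast
      linarith
    exact_mod_cast h1
  obtain ⟨n0, hn0a, hn0b, hn0c⟩ : ∃ n0 : ℕ, 3 ≤ n0 ∧ (n0 : ℝ) ≤ V ∧ ∀ m, n0 ≤ m → j1 ≤ Nat.log 2 m := by
    refine ⟨2 ^ j1, ?_, ?_, fun m hm => Nat.le_log_of_pow_le (by norm_num) hm⟩
    · calc 3 ≤ 2 ^ 2 := by norm_num
        _ ≤ 2 ^ j1 := Nat.pow_le_pow_right (by norm_num) (by omega)
    · push_cast
      have h1 : ((2 : ℝ)) ^ j1 = Real.exp (j1 * Real.log 2) := by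
        rw [← Real.log_pow, Real.exp_log (by positivity)]
      rw [h1, hV, Real.rpow_def_of_pos (by linarith)]
      apply Real.exp_le_exp.2
      have h2 : (j1 : ℝ) * Real.log 2 ≤ θ / 2 * L * Real.log 2 := mul_le_mul_of_nonneg_right hj1a hl2.le
      have h3 : θ / 2 * (L * Real.log 2) ≤ θ / 2 * Real.log Y := mul_le_mul_of_nonneg_left hlogY1 (by positivity)
      linarith
  have hn0x : n0 ≤ x := by
    have h1 : (n0 : ℝ) ≤ x := by
      refine hn0b.trans (le_trans ?_ hx1)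
      rw [hYsplit]
      nlinarith
    exact_mod_cast h1
  have hs1 : ∀ f ∈ s, 1 ≤ f.1 ∧ 1 ≤ f.2 := fun f hf =>
    ⟨(Finset.mem_Icc.1 (Finset.mem_product.1 (hs hf)).1).1, (Finset.mem_Icc.1 (Finset.mem_product.1 (hs hf)).2).1⟩
  have hlev : ∀ n, n0 ≤ n → n < x → ∀ f ∈ s, j1 ≤ Nat.log 2 (val f n) ∧ Nat.log 2 (val f n) ≤ 2 * L + 2 := by
    intro n hn hnx f hf
    obtain ⟨h1, h2⟩ := val_bounds hs (show n ≤ Y by omega) hf
    exact ⟨hn0c _ (by omega), hvlev _ (by omega) h2⟩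
  have hJW : ∀ j, j1 ≤ j → Real.log (∏ p ∈ P j, p : ℕ) ≤ κ * Real.log 2 * j := fun j hj => (hJ0 j (by omega)).1
  have hc : ∀ j, j1 ≤ j → j ≤ 2 * L + 2 → cc P j ≤ j * Real.log 2 := by
    intro j hj _
    refine (ratio_le_log (P j) (hP j)).trans ?_
    have h1 := hJW j hj
    have h2 : (5 : ℝ) ≤ j := by exact_mod_cast (by omega : 5 ≤ j)
    have h3 : Real.log (∏ p ∈ P j, p : ℕ) / Real.log 2 ≤ κ * j := by
      rw [div_le_iff₀ hl2]
      linarith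
    have h4 : κ * (j : ℝ) ≤ 1 / 4 * j := mul_le_mul_of_nonneg_right hκ1 (by linarith)
    have h5 : 1 / 2 * (j : ℝ) ≤ Real.log 2 * j := mul_le_mul_of_nonneg_right hl2b (by linarith)
    linarith
  have he : (1 + 1 / (j1 : ℝ)) ^ s.card ≤ 1 + δ := by
    rw [hsk]
    exact (hJ0 j1 (by omega)).2.2.2.2
  have hj12 : j1 ≤ 2 * L + 2 := by
    have h1 := (hlev n0 le_rfl ?_)
    · obtain ⟨f, hf⟩ : s.Nonempty := Finset.card_pos.1 (by omega)
      have := h1 f hf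
      omega
    · -- `n0 < x`
      rcases hn0x.eq_or_lt with h | h
      · exfalso
        have h2 : (x : ℝ) ≤ V := by rw [← h]; exact hn0b
        have h3 : V * V ≤ V := by
          rw [← hYsplit]
          exact hx1.trans h2
        have h4 : 2 ≤ V := by
          refine le_trans ?_ hY1
          rw [le_div_iff₀ hδ0]
          linarith
        nlinarith
      · exact h
  obtain ⟨js, hjs, hmin⟩ := Finset.exists_min_image (Finset.Icc j1 (2 * L + 2)) y ⟨j1, Finset.mem_Icc.2 ⟨le_rfl, hj12⟩⟩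
  rw [Finset.mem_Icc] at hjs
  obtain ⟨_, q1, q2, _, _⟩ := hJ0 js (by omega)
  have hallp : ∀ j, j1 ≤ j → j ≤ 2 * L + 2 → ∀ p : ℕ, p.Prime → p ≤ y js → p ∈ P j := by
    intro j h1 h2 p hp hpy
    exact (hJ0 j (by omega)).2.2.2.1 p hp (hpy.trans (hmin j (Finset.mem_Icc.2 ⟨h1, h2⟩)))
  have hjsR : θ / 4 * (L : ℝ) ≤ js := by
    have : (j1 : ℝ) ≤ js := by exact_mod_cast hjs.1
    linarith
  have hD : ∀ J : ℕ × ℕ → ℕ, (∀ f ∈ s, j1 ≤ J f ∧ J f ≤ 2 * L + 2) →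
      (1 - δ) * sing s ≤ ∏ p ∈ UU P s J, lf (sb P s J p).card (nu (sb P s J p) p) p ∧
      ∏ p ∈ UU P s J, lf (sb P s J p).card (nu (sb P s J p) p) p ≤ (1 + δ) * sing s := by
    intro J hJ
    refine prod_close hadm (y := y js) (Y := Y) (by omega) hs ?_ ?_ ?_ hδ0 (by linarith) ?_ ?_ (UU P s J) (UU_prime hP s J) ?_ (sb P s J)
      (fun p => Finset.filter_subset _ _) ?_
    · rw [hsk]
      have : 2 * (k : ℝ) ≤ y js := hM1c.trans q1
      exact_mod_cast this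
    · rw [hsk]
      have : 2 * (k : ℝ) ^ 2 ≤ y js := hM1b.trans q1
      exact_mod_cast this
    · have : (2 : ℝ) ≤ y js := hM1d.trans q1
      have : 2 ≤ y js := by exact_mod_cast this
      omega
    · rw [hsk, div_le_iff₀ (by linarith)]
      have h1 : 8 * (k : ℝ) ^ 2 / δ ≤ y js := hM1a.trans q1
      rw [div_le_iff₀ hδ0] at h1
      linarith
    · rw [hsk]
      have h1 : M2 * (θ / 4 * L) ≤ (y js : ℝ) * Real.log (y js) := (mul_le_mul_of_nonneg_left hjsR hM20).trans q2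
      have h2 : δ / 8 * (M2 * (θ / 4 * L)) ≤ δ / 8 * ((y js : ℝ) * Real.log (y js)) := mul_le_mul_of_nonneg_left h1 (by positivity)
      have h3 : δ / 8 * (M2 * (θ / 4 * L)) = 12 * (k : ℝ) ^ 3 * L := by
        rw [hM2]
        field_simp
        ring
      have h4 : 6 * (k : ℝ) ^ 3 * Real.log Y ≤ 6 * (k : ℝ) ^ 3 * (2 * L) := mul_le_mul_of_nonneg_left hlogY3 (by positivity)
      linarith
    · intro p hp hpy
      obtain ⟨f, hf⟩ : s.Nonempty := Finset.card_pos.1 (by omega)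
      exact Finset.mem_biUnion.2 ⟨f, hf, hallp _ (hJ f hf).1 (hJ f hf).2 p hp hpy⟩
    · intro p hp hpy
      exact Finset.filter_true_of_mem fun f hf => hallp _ (hJ f hf).1 (hJ f hf).2 p hp hpy
  have hVV : ∀ J : ℕ × ℕ → ℕ, (∀ f ∈ s, j1 ≤ J f ∧ J f ≤ 2 * L + 2) → ((∏ f ∈ s, ∏ p ∈ P (J f), p : ℕ) : ℝ) ≤ V := by
    intro J hJ
    have hpos : ∀ f ∈ s, (0 : ℝ) < ((∏ p ∈ P (J f), p : ℕ) : ℝ) := fun f _ => by
      exact_mod_cast Finset.prod_pos fun q hq => (hP _ q hq).pos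
    rw [hV, Real.rpow_def_of_pos (by linarith), ← Real.log_le_iff_le_exp (by
      rw [Nat.cast_prod]
      exact Finset.prod_pos hpos), Nat.cast_prod, Real.log_prod (fun f hf => (hpos f hf).ne')]
    have h1 : ∑ f ∈ s, Real.log ((∏ p ∈ P (J f), p : ℕ) : ℝ) ≤ ∑ _f ∈ s, κ * Real.log 2 * (2 * L + 2) := by
      refine Finset.sum_le_sum fun f hf => (hJW _ (hJ f hf).1).trans ?_
      have : ((J f : ℕ) : ℝ) ≤ 2 * L + 2 := by exact_mod_cast (hJ f hf).2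
      exact mul_le_mul_of_nonneg_left this (by positivity)
    rw [Finset.sum_const, nsmul_eq_mul, hsk] at h1
    refine h1.trans ?_
    have h2 : (k : ℝ) * (κ * Real.log 2 * (2 * L + 2)) ≤ θ / 16 * (Real.log 2 * (2 * L + 2)) := by
      calc (k : ℝ) * (κ * Real.log 2 * (2 * L + 2)) = (k * κ) * (Real.log 2 * (2 * L + 2)) := by ring
        _ ≤ _ := mul_le_mul_of_nonneg_right hκθ (by positivity)
    have h3 : Real.log 2 * (2 * L + 2) ≤ 4 * Real.log Y := by nlinarith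
    have h4 : θ / 16 * (Real.log 2 * (2 * L + 2)) ≤ θ / 16 * (4 * Real.log Y) := mul_le_mul_of_nonneg_left h3 (by positivity)
    have h5 : 0 ≤ θ * Real.log Y := by positivity
    linarith
  have hpieces := pieces hP s (n0 := n0) (x := x) (j1 := j1) (j2 := 2 * L + 2) (by omega) hlev hc he hD hVV (by linarith)
    (k * (2 * L + 2)) n0 x le_rfl hn0x le_rfl (by
      have h1 : ∑ f ∈ s, Nat.log 2 (val f x) ≤ s.card • (2 * L + 2) := by
        refine Finset.sum_le_card_nsmul _ _ _ fun f hf => ?_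
        obtain ⟨h1, h2⟩ := val_bounds hs hx2 hf
        exact hvlev _ (by omega) h2
      rw [hsk, smul_eq_mul] at h1
      omega)
  have hΛ1 : 1 ≤ L ^ (k + 1) := Nat.one_le_pow _ _ (by omega)
  have hx0 : (0 : ℝ) < x := by
    have : 0 < x := by omega
    exact_mod_cast this
  have hlogx : θ * Real.log Y ≤ Real.log x := by
    rw [← Real.log_rpow (by linarith)]
    exact Real.log_le_log (Real.rpow_pos_of_pos (by linarith) _) hx1
  have hsum := gg_sum hs1 hn0a hn0x hΛ1 hδ0 hδ1 (by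
    push_cast
    rw [Real.log_pow]
    push_cast
    refine hL3.trans ?_
    have h1 : θ * (L * Real.log 2) ≤ θ * Real.log Y := mul_le_mul_of_nonneg_left hlogY1 hθ.le
    have h2 : θ * (L * (1 / 2)) ≤ θ * (L * Real.log 2) := by
      apply mul_le_mul_of_nonneg_left _ hθ.le
      exact mul_le_mul_of_nonneg_left hl2b (by linarith)
    have h3 : δ * (θ * (L * (1 / 2))) ≤ δ * Real.log x := mul_le_mul_of_nonneg_left (by linarith) hδ0.le
    linarith)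
  rw [hsk] at hsum
  set E := ∑ n ∈ Finset.Ico n0 x, gg s n with hE
  set g := gg s x with hg
  have hg0 : 0 ≤ g := gg_nonneg s x
  have hS0 : 0 ≤ sing s := by
    obtain ⟨c, hc0, hc⟩ := sing_lower k
    exact hc0.le.trans (hc s hsk hadm fun f hf => (hs1 f hf).1)
  have hLb : Real.log Y * V ≤ δ / 2 * (x * g) := by
    have h1 : (2 / δ) * (Real.log Y * V) ≤ ((16 * k + 3) / δ + 2 / δ) * (Real.log Y * V) := by
      apply mul_le_mul_of_nonneg_right _ (by positivity)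
      have : 0 ≤ (16 * (k : ℝ) + 3) / δ := by positivity
      linarith
    have h2 := h1.trans hb2
    rw [div_mul_eq_mul_div, div_le_iff₀ hδ0] at h2
    linarith
  have hglow := gg_lower hY3 hs hx2 (show 1 ≤ x by omega)
  rw [hsk, ← hg] at hglow
  have hEF : EF (rhoG P) s x = ∑ n ∈ Finset.range n0, ∏ f ∈ s, rhoG P (val f n) + ∑ n ∈ Finset.Ico n0 x, ∏ f ∈ s, rhoG P (val f n) := by
    unfold EF
    rw [Finset.range_eq_Ico, Finset.range_eq_Ico, Finset.sum_Ico_consecutive _ (Nat.zero_le _) hn0x]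
  have hfirst : 0 ≤ ∑ n ∈ Finset.range n0, ∏ f ∈ s, rhoG P (val f n) ∧ ∑ n ∈ Finset.range n0, ∏ f ∈ s, rhoG P (val f n) ≤ n0 := by
    constructor
    · exact Finset.sum_nonneg fun n _ => Finset.prod_nonneg fun f _ => (rhoG_01 P _).1
    · have h1 := Finset.sum_le_card_nsmul (Finset.range n0) (fun n => ∏ f ∈ s, rhoG P (val f n)) 1 fun n _ =>
        Finset.prod_le_one (fun f _ => (rhoG_01 P _).1) fun f _ => (rhoG_01 P _).2
      rwa [Finset.card_range, nsmul_eq_mul, mul_one] at h1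
  refine assemble (δ := δ) (ε := ε) (S := sing s) (X := x * g) (E := E) (n0 := (n0 : ℝ))
    (err := (((k * (2 * L + 2) : ℕ) : ℝ) + 1) * (2 * V)) (C := ((1 - δ)⁻¹) ^ k) hδ0 hδ1 hS0 (by positivity) hδa hδb ?_ ?_
    (Nat.cast_nonneg _) ?_ ?_ ?_
  · -- lower bound for `E`
    refine le_trans ?_ hsum.1
    have h1 : (n0 : ℝ) ≤ δ * x := by
      have h2 : δ * (V * V) ≤ δ * x := mul_le_mul_of_nonneg_left (by rw [← hYsplit]; exact hx1) hδ0.le
      have h3 : 1 ≤ δ * V := by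
        rw [div_le_iff₀ hδ0] at hY1
        linarith
      nlinarith
    have h4 : (n0 : ℝ) * g ≤ δ * x * g := mul_le_mul_of_nonneg_right h1 hg0
    nlinarith
  · -- upper bound for `E`
    refine hsum.2.trans ?_
    have h1 : (x : ℝ) / ((L ^ (k + 1) : ℕ) : ℝ) ≤ δ / 2 * (x * g) := by
      push_cast
      have h2 : (3 * Real.log Y) ^ k ≤ (6 * (L : ℝ)) ^ k := pow_le_pow_left₀ (by positivity) (by linarith) k
      have h3 : 1 / (6 * (L : ℝ)) ^ k ≤ g := by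
        refine le_trans ?_ hglow
        exact one_div_le_one_div_of_le (by positivity) h2
      have h4 : 1 / (L : ℝ) ^ (k + 1) ≤ δ / 2 * (1 / (6 * (L : ℝ)) ^ k) := by
        rw [mul_one_div, div_le_div_iff₀ (by positivity) (by positivity), one_mul, mul_pow, pow_succ]
        have h5 : 2 * 6 ^ k ≤ (L : ℝ) * δ := by
          rwa [div_le_iff₀ hδ0] at hL2
        have h6 : (0 : ℝ) ≤ (L : ℝ) ^ k := by positivity
        nlinarith [mul_le_mul_of_nonneg_right h5 h6]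
      have h5 : 1 / (L : ℝ) ^ (k + 1) ≤ δ / 2 * g := h4.trans (mul_le_mul_of_nonneg_left h3 (by positivity))
      calc (x : ℝ) / (L : ℝ) ^ (k + 1) = x * (1 / (L : ℝ) ^ (k + 1)) := by ring
        _ ≤ x * (δ / 2 * g) := mul_le_mul_of_nonneg_left h5 hx0.le
        _ = _ := by ring
    have h2 : 1 ≤ Real.log Y * V := by nlinarith
    have h3 : (δ + ((1 - δ)⁻¹) ^ k) * (x * g) = δ / 2 * (x * g) + δ / 2 * (x * g) + ((1 - δ)⁻¹) ^ k * (x * g) := by ring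
    rw [h3]
    linarith
  · rw [hEF]
    linarith [hpieces.1, hfirst.1]
  · rw [hEF]
    linarith [hpieces.2, hfirst.2]
  · -- errors
    have h1 : ((16 * (k : ℝ) + 3) / δ) * (Real.log Y * V) ≤ ((16 * k + 3) / δ + 2 / δ) * (Real.log Y * V) := by
      apply mul_le_mul_of_nonneg_right _ (by positivity)
      have : 0 ≤ 2 / δ := by positivity
      linarith
    have h2 := h1.trans hb1
    rw [div_mul_eq_mul_div, div_le_iff₀ hδ0] at h2
    have h3 : ((k * (2 * L + 2) : ℕ) : ℝ) + 1 ≤ 8 * k * Real.log Y + 1 := by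
      push_cast
      have : (2 * (L : ℝ) + 2) ≤ 8 * Real.log Y := by nlinarith
      nlinarith
    have h4 : (((k * (2 * L + 2) : ℕ) : ℝ) + 1) * (2 * V) ≤ (8 * k * Real.log Y + 1) * (2 * V) := mul_le_mul_of_nonneg_right h3 (by linarith)
    have h5 : V ≤ Real.log Y * V := by nlinarith
    nlinarith

end Pool.Agent.N732.GL
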