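import Mathlib
import Pool.Agent.N732.GL.Main

set_option autoImplicit false
set_option linter.unusedSectionVars false

/-! # The law for all systems of linear forms, in all intervals -/

open MeasureTheory Filter Set
open scoped Topology ENNReal

namespace Pool.Agent.N732.GL

open Pool.Agent.R528.RM Pool.Agent.N732.GS Pool.Agent.N732.GX
open Pool.Agent.N893.SM (val EF TF)

variable {Ω : Type} {m0 : MeasurableSpace Ω} {μ : Measure Ω} [IsProbabilityMeasure μ]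
  {ℱ : Filtration ℕ m0} {A : ℕ → Set Ω}

lemma choose_two (k : ℕ) {ε : ℝ} (hε : 0 < ε) : ∃ δ : ℝ, 0 < δ ∧ δ ≤ 1 ∧
    (1 + δ) ^ k * (1 + 2 * δ) ≤ 1 + ε ∧ 1 - ε ≤ (1 - δ) ^ k * (1 - δ) - δ := by
  have c1 : ContinuousAt (fun δ : ℝ => (1 + δ) ^ k * (1 + 2 * δ)) 0 := by fun_prop
  have c2 : ContinuousAt (fun δ : ℝ => (1 - δ) ^ k * (1 - δ) - δ) 0 := by fun_prop
  have e1 := c1.eventually (gt_mem_nhds (show (1 + (0 : ℝ)) ^ k * (1 + 2 * 0) < 1 + ε by simp [hε]))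
  have e2 := c2.eventually (lt_mem_nhds (show 1 - ε < (1 - (0 : ℝ)) ^ k * (1 - 0) - 0 by simp [hε]))
  have e3 : ∀ᶠ δ : ℝ in 𝓝[>] 0, (1 + δ) ^ k * (1 + 2 * δ) < 1 + ε ∧ 1 - ε < (1 - δ) ^ k * (1 - δ) - δ :=
    nhdsWithin_le_nhds (e1.and e2)
  obtain ⟨δ, ⟨h1, h2⟩, h3⟩ := (e3.and (Ioc_mem_nhdsGT (show (0 : ℝ) < 1 by norm_num))).exists
  exact ⟨δ, h3.1, h3.2, h1.le, h2.le⟩

/-- **the law for all systems** -/
theorem forms_law (hA : ∀ n, MeasurableSet[ℱ n] (A n)) (P : ℕ → Finset ℕ) (hP : ∀ j, ∀ p ∈ P j, p.Prime)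
    (hW : Tendsto (fun j : ℕ => Real.log (∏ p ∈ P j, p : ℕ) / j) atTop (𝓝 0))
    (y : ℕ → ℕ) (hy : Tendsto (fun j : ℕ => (y j : ℝ) * Real.log (y j) / j) atTop atTop)
    (hPy : ∀ᶠ j : ℕ in atTop, ∀ p : ℕ, p.Prime → p ≤ y j → p ∈ P j)
    (hd : ∀ᵐ ω ∂μ, ∀ ε : ℝ, 0 < ε → ∀ᶠ n : ℕ in atTop, |dens μ ℱ A n ω - rhoG P (n + 1)| ≤ ε * rhoG P (n + 1)) :
    ∀ᵐ ω ∂μ, ∀ k : ℕ, 1 ≤ k → ∀ θ ε : ℝ, 0 < θ → 0 < ε → ∀ᶠ Y : ℕ in atTop, ∀ x : ℕ, (Y : ℝ) ^ θ ≤ x → x ≤ Y →
      ∀ s : Finset (ℕ × ℕ), s ⊆ Finset.Icc 1 Y ×ˢ Finset.Icc 1 Y → s.card = k → Adm s →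
      |TF A s x ω - sing s * (x * gg s x)| ≤ ε * (sing s * (x * gg s x)) := by
  filter_upwards [Pool.Agent.N893.SM.law (μ := μ) hA (rhoG P) (rhoG_01 P) hd] with ω hω k hk θ ε hθ hε
  obtain ⟨δ, hδ0, hδ1, h1, h2⟩ := choose_two k hε
  obtain ⟨K, hK0, hK⟩ := hω δ hδ0 hδ1
  filter_upwards [hK, EF_asymp P hP hW y hy hPy hk hδ0 hθ, big k hθ (K * k ^ 3 / δ), eventually_ge_atTop 2] with Y hY1 hY2 hY3 hY4 x hx1 hx2 s hs hsk hadm
  obtain ⟨a1, a2⟩ := hY1 x hx2 s hs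
  have b := abs_le.1 (hY2 x hx1 hx2 s hs hsk hadm)
  have c := (hY3 x hx1 hx2 s hs hsk hadm).1
  rw [hsk] at a1 a2
  have hYR : (2 : ℝ) ≤ Y := by exact_mod_cast hY4
  have hlY : 0 < Real.log (Y : ℝ) := Real.log_pos (by linarith)
  have hS0 : 0 ≤ sing s := by
    obtain ⟨c, hc0, hc⟩ := sing_lower k
    exact hc0.le.trans (hc s hsk hadm fun f hf => (Finset.mem_Icc.1 (Finset.mem_product.1 (hs hf)).1).1)
  have hX0 : 0 ≤ sing s * (x * gg s x) := by
    have := gg_nonneg s x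
    positivity
  have hV : 1 ≤ (Y : ℝ) ^ (θ / 2) := Real.one_le_rpow (by linarith) (by positivity)
  generalize hXd : sing s * (x * gg s x) = X at *
  generalize hTd : TF A s x ω = T at *
  generalize hEd : EF (rhoG P) s x = E at *
  have hk0 : (0 : ℝ) ≤ k := Nat.cast_nonneg k
  have hsm : K * (k : ℝ) ^ 3 * Real.log Y ≤ δ * X := by
    have e1 : K * (k : ℝ) ^ 3 / δ * Real.log Y ≤ K * k ^ 3 / δ * (Real.log Y * (Y : ℝ) ^ (θ / 2)) := by
      apply mul_le_mul_of_nonneg_left _ (by positivity)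
      nlinarith
    have e2 := e1.trans c
    rw [div_mul_eq_mul_div, div_le_iff₀ hδ0] at e2
    linarith
  have hp1 : 0 ≤ (1 - δ) ^ k := pow_nonneg (by linarith) _
  have hp2 : 0 ≤ (1 + δ) ^ k := pow_nonneg (by linarith) _
  rw [abs_le]
  constructor
  · have e1 : (1 - δ) ^ k * ((1 - δ) * X) ≤ (1 - δ) ^ k * E := mul_le_mul_of_nonneg_left (by linarith [b.1]) hp1
    have e2 := mul_le_mul_of_nonneg_right h2 hX0
    nlinarith
  · have e1 : (1 + δ) ^ k * (E + K * (k : ℝ) ^ 3 * Real.log Y) ≤ (1 + δ) ^ k * ((1 + 2 * δ) * X) :=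
      mul_le_mul_of_nonneg_left (by linarith [b.2]) hp2
    have e2 := mul_le_mul_of_nonneg_right h1 hX0
    nlinarith

/-! ### Shifted systems -/

/-- the forms `a (X + i) + b` -/
def shift (s : Finset (ℕ × ℕ)) (X : ℕ) : Finset (ℕ × ℕ) := s.image fun f => (f.1, f.1 * X + f.2)

lemma shift_inj (X : ℕ) : Function.Injective (fun f : ℕ × ℕ => (f.1, f.1 * X + f.2)) := by
  rintro ⟨a, b⟩ ⟨c, d⟩ h
  simp only [Prod.mk.injEq] at h
  obtain ⟨h1, h2⟩ := h
  subst h1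
  simp only [Prod.mk.injEq, true_and]
  omega

lemma shift_card (s : Finset (ℕ × ℕ)) (X : ℕ) : (shift s X).card = s.card := Finset.card_image_of_injective _ (shift_inj X)

lemma shift_nu (s : Finset (ℕ × ℕ)) (X : ℕ) {p : ℕ} (hp : 0 < p) : nu (shift s X) p = nu s p := by
  have hdvd : ∀ (a b r : ℕ), p ∣ a * ((r + X) % p) + b ↔ p ∣ a * (r + X) + b := by
    intro a b r
    have h : a * ((r + X) % p) + b ≡ a * (r + X) + b [MOD p] := ((Nat.mod_modEq _ p).mul_left _).add_right _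
    exact h.dvd_iff (dvd_refl p)
  unfold nu
  apply Finset.card_nbij (fun r => (r + X) % p)
  · intro r hr
    unfold res shift at hr
    rw [Finset.mem_coe, Finset.mem_filter] at hr
    obtain ⟨h1, f', hf', hd⟩ := hr
    obtain ⟨f, hf, rfl⟩ := Finset.mem_image.1 hf'
    unfold res
    rw [Finset.mem_coe, Finset.mem_filter, Finset.mem_range]
    refine ⟨Nat.mod_lt _ hp, f, hf, (hdvd _ _ _).2 ?_⟩
    simp only at hd
    rw [mul_add, add_assoc]
    exact hd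
  · intro r hr r' hr' h
    unfold res at hr hr'
    rw [Finset.mem_coe, Finset.mem_filter, Finset.mem_range] at hr hr'
    have h1 : r + X ≡ r' + X [MOD p] := h
    have h2 : r ≡ r' [MOD p] := Nat.ModEq.add_right_cancel' X h1
    have h3 : r % p = r' % p := h2
    rwa [Nat.mod_eq_of_lt hr.1, Nat.mod_eq_of_lt hr'.1] at h3
  · intro q hq
    unfold res at hq
    rw [Finset.mem_coe, Finset.mem_filter, Finset.mem_range] at hq
    obtain ⟨h1, f, hf, hd⟩ := hq
    have e1 : ((q + (p - X % p)) % p + X) % p = q := by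
      rw [Nat.mod_add_mod]
      have e2 : q + (p - X % p) + X = q + p * (1 + X / p) := by
        have h3 := Nat.mod_add_div X p
        have h4 := Nat.mod_lt X hp
        have h5 : p * (1 + X / p) = p + p * (X / p) := by ring
        omega
      rw [e2, Nat.add_mul_mod_self_left, Nat.mod_eq_of_lt h1]
    refine ⟨(q + (p - X % p)) % p, ?_, e1⟩
    unfold res shift
    rw [Finset.mem_coe, Finset.mem_filter, Finset.mem_range]
    refine ⟨Nat.mod_lt _ hp, (f.1, f.1 * X + f.2), Finset.mem_image_of_mem _ hf, ?_⟩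
    simp only
    rw [← add_assoc, ← mul_add, ← hdvd, e1]
    exact hd

lemma shift_adm {s : Finset (ℕ × ℕ)} (hs : Adm s) (X : ℕ) : Adm (shift s X) := fun p hp => by
  rw [shift_nu s X hp.pos]
  exact hs p hp

lemma shift_sing (s : Finset (ℕ × ℕ)) (X : ℕ) : sing (shift s X) = sing s := by
  unfold sing
  refine tprod_congr fun p => ?_
  rw [shift_card, shift_nu s X p.2.pos]

lemma shift_TF (s : Finset (ℕ × ℕ)) (X h : ℕ) (ω : Ω) :
    TF A (shift s X) h ω = ∑ n ∈ Finset.Ico X (X + h), ∏ f ∈ s, In A (f.1 * n + f.2) ω := by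
  unfold TF
  rw [Finset.sum_Ico_eq_sum_range, Nat.add_sub_cancel_left]
  refine Finset.sum_congr rfl fun i _ => ?_
  unfold shift
  rw [Finset.prod_image (fun f _ g _ hfg => shift_inj X hfg)]
  refine Finset.prod_congr rfl fun f _ => ?_
  unfold val
  simp only
  congr 1
  ring

lemma shift_gg (s : Finset (ℕ × ℕ)) (X h : ℕ) :
    gg (shift s X) h = ∏ f ∈ s, (Real.log ((f.1 * (X + h) + f.2 : ℕ) : ℝ))⁻¹ := by
  unfold gg shift
  rw [Finset.prod_image (fun f _ g _ hfg => shift_inj X hfg)]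
  refine Finset.prod_congr rfl fun f _ => ?_
  unfold val
  simp only
  congr 3
  ring

/-- **all intervals** -/
theorem intervals_law {ω : Ω} (hω : ∀ k : ℕ, 1 ≤ k → ∀ θ ε : ℝ, 0 < θ → 0 < ε → ∀ᶠ Y : ℕ in atTop, ∀ x : ℕ, (Y : ℝ) ^ θ ≤ x → x ≤ Y →
      ∀ s : Finset (ℕ × ℕ), s ⊆ Finset.Icc 1 Y ×ˢ Finset.Icc 1 Y → s.card = k → Adm s →
      |TF A s x ω - sing s * (x * gg s x)| ≤ ε * (sing s * (x * gg s x))) (k C : ℕ) (hk : 1 ≤ k) {θ ε : ℝ} (hθ : 0 < θ) (hε : 0 < ε) :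
    ∀ᶠ Z : ℕ in atTop, ∀ X h : ℕ, 1 ≤ X → X + h ≤ Z → (Z : ℝ) ^ θ ≤ h → ∀ s : Finset (ℕ × ℕ), s.card = k →
      (∀ f ∈ s, 1 ≤ f.1 ∧ f.1 ≤ Z ^ C ∧ f.2 ≤ Z ^ C) → Adm s →
      |(∑ n ∈ Finset.Ico X (X + h), ∏ f ∈ s, In A (f.1 * n + f.2) ω) * (∏ f ∈ s, Real.log ((f.1 * (X + h) + f.2 : ℕ) : ℝ)) / (sing s * h) - 1| ≤ ε := by
  have ht : Tendsto (fun Z : ℕ => Z ^ (C + 2)) atTop atTop := tendsto_pow_atTop (by omega)
  filter_upwards [ht.eventually (hω k hk (θ / (C + 2)) ε (by positivity) hε), eventually_ge_atTop 3] with Z hZ hZ3 X h hX hXh hh s hsk hs hadm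
  have hZR : (3 : ℝ) ≤ Z := by exact_mod_cast hZ3
  have hrp : ((Z ^ (C + 2) : ℕ) : ℝ) ^ (θ / (C + 2)) = (Z : ℝ) ^ θ := by
    push_cast
    rw [← Real.rpow_natCast, ← Real.rpow_mul (by linarith)]
    congr 1
    push_cast
    field_simp
  have hZ1 : Z ≤ Z ^ (C + 2) := by
    calc Z = Z ^ 1 := (pow_one Z).symm
      _ ≤ Z ^ (C + 2) := Nat.pow_le_pow_right (by omega) (by omega)
  have hZ2 : Z ^ C ≤ Z ^ (C + 2) := Nat.pow_le_pow_right (by omega) (by omega)
  have hh0 : (0 : ℝ) < h := lt_of_lt_of_le (Real.rpow_pos_of_pos (by linarith) _) hh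
  have hh1 : 1 ≤ h := by exact_mod_cast hh0
  have hsub : shift s X ⊆ Finset.Icc 1 (Z ^ (C + 2)) ×ˢ Finset.Icc 1 (Z ^ (C + 2)) := by
    intro f' hf'
    obtain ⟨f, hf, rfl⟩ := Finset.mem_image.1 hf'
    obtain ⟨h1, h2, h3⟩ := hs f hf
    rw [Finset.mem_product, Finset.mem_Icc, Finset.mem_Icc]
    refine ⟨⟨h1, h2.trans hZ2⟩, ?_, ?_⟩
    · simp only
      have : 1 * 1 ≤ f.1 * X := Nat.mul_le_mul h1 hX
      omega
    · simp only
      have e1 : f.1 * X ≤ Z ^ C * Z := Nat.mul_le_mul h2 (by omega)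
      have e2 : Z ^ (C + 2) = Z ^ C * Z * Z := by ring
      have e3 : Z ^ C ≤ Z ^ C * Z := Nat.le_mul_of_pos_right _ (by omega)
      have e4 : Z ^ C * Z * 3 ≤ Z ^ C * Z * Z := Nat.mul_le_mul_left _ hZ3
      omega
  have h1 := hZ h (by rw [hrp]; exact hh) (by omega) (shift s X) hsub (by rw [shift_card, hsk]) (shift_adm hadm X)
  rw [shift_sing, shift_TF, shift_gg] at h1
  have hS : 0 < sing s := by
    obtain ⟨c, hc0, hc⟩ := sing_lower k
    exact lt_of_lt_of_le hc0 (hc s hsk hadm fun f hf => (hs f hf).1)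
  have hG : 0 < ∏ f ∈ s, Real.log ((f.1 * (X + h) + f.2 : ℕ) : ℝ) := by
    refine Finset.prod_pos fun f hf => Real.log_pos ?_
    have e1 : 1 * (X + h) ≤ f.1 * (X + h) := Nat.mul_le_mul_right _ (hs f hf).1
    exact_mod_cast (by omega : 1 < f.1 * (X + h) + f.2)
  rw [Finset.prod_inv_distrib] at h1
  set G := ∏ f ∈ s, Real.log ((f.1 * (X + h) + f.2 : ℕ) : ℝ) with hGd
  set T := ∑ n ∈ Finset.Ico X (X + h), ∏ f ∈ s, In A (f.1 * n + f.2) ω with hT
  have hSne : sing s ≠ 0 := hS.ne'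
  have hGne : G ≠ 0 := hG.ne'
  have hhne : (h : ℝ) ≠ 0 := hh0.ne'
  have e1 : T * G / (sing s * h) - 1 = (T - sing s * (h * G⁻¹)) * (G / (sing s * h)) := by
    field_simp
  rw [e1, abs_mul, abs_of_pos (show 0 < G / (sing s * h) by positivity)]
  calc |T - sing s * (h * G⁻¹)| * (G / (sing s * h)) ≤ (ε * (sing s * (h * G⁻¹))) * (G / (sing s * h)) :=
        mul_le_mul_of_nonneg_right h1 (by positivity)
    _ = ε := by field_simp

/-! ### Systems with leading coefficients 1 -/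

lemma nu_le_monic {s : Finset (ℕ × ℕ)} (h1 : ∀ f ∈ s, f.1 = 1) {p : ℕ} (hp : p.Prime) : nu s p ≤ s.card := by
  unfold nu
  rw [res_biUnion]
  refine Finset.card_biUnion_le.trans ?_
  rw [Finset.card_eq_sum_ones]
  refine Finset.sum_le_sum fun f hf => ?_
  rw [root_one hp (by rw [h1 f hf]; exact hp.one_lt.ne' ∘ Nat.dvd_one.1)]

/-- the constant of the triples -/
noncomputable def DD : ℝ := 9 / 2 * ∏' p : {p : ℕ // p.Prime ∧ 3 < p}, ((p : ℕ) : ℝ) ^ 2 * (((p : ℕ) : ℝ) - 3) / (((p : ℕ) : ℝ) - 1) ^ 3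

lemma sing_triple {s : Finset (ℕ × ℕ)} (hadm : Adm s) (hs1 : ∀ f ∈ s, 1 ≤ f.1) (hk : s.card = 3) (h2 : nu s 2 = 1) (h3 : nu s 3 = 2)
    (h5 : ∀ p : ℕ, p.Prime → 3 < p → nu s p = 3) : sing s = DD := by
  classical
  set b : ℕ → ℝ := fun n => if n = 2 then 1 / 4 else if n = 3 then 8 / 9 else 1 with hb
  have g1 : HasProd (fun p : Nat.Primes => lf s.card (nu s p) p) (sing s) := (lf_multipliable hadm hs1).hasProd
  have g2 : HasProd (Set.mulIndicator {p : ℕ | p.Prime} (fun n => lf s.card (nu s n) n)) (sing s) := by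
    rw [← hasProd_subtype_iff_mulIndicator]
    exact g1
  have g3 : HasProd b (∏ n ∈ ({2, 3} : Finset ℕ), b n) := by
    apply hasProd_prod_of_ne_finset_one
    intro n hn
    rw [Finset.mem_insert, Finset.mem_singleton, not_or] at hn
    simp only [hb]
    rw [if_neg hn.1, if_neg hn.2]
  have g4 := g2.mul g3
  have g5 : (fun n => Set.mulIndicator {p : ℕ | p.Prime} (fun n => lf s.card (nu s n) n) n * b n) =
      Set.mulIndicator {p : ℕ | p.Prime ∧ 3 < p} (fun n : ℕ => (n : ℝ) ^ 2 * ((n : ℝ) - 3) / ((n : ℝ) - 1) ^ 3) := by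
    funext n
    by_cases hn : n.Prime
    · rw [Set.mulIndicator_of_mem (show n ∈ {p : ℕ | p.Prime} from hn)]
      rcases Nat.lt_or_ge 3 n with h6 | h6
      · rw [Set.mulIndicator_of_mem (show n ∈ {p : ℕ | p.Prime ∧ 3 < p} from ⟨hn, h6⟩)]
        have h7 : (3 : ℝ) < n := by exact_mod_cast h6
        have e0 : (n : ℝ) ≠ 0 := by linarith
        have e1 : (n : ℝ) - 1 ≠ 0 := by linarith
        have e2 : 1 - 1 / (n : ℝ) ≠ 0 := by
          have : 1 - 1 / (n : ℝ) = ((n : ℝ) - 1) / n := by field_simp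
          rw [this]
          exact div_ne_zero e1 e0
        simp only [hb]
        rw [if_neg (by omega), if_neg (by omega), hk, h5 n hn h6]
        unfold lf
        push_cast
        field_simp
      · have h7 : n = 2 ∨ n = 3 := by
          have := hn.two_le
          omega
        rw [Set.mulIndicator_of_notMem (by
          rintro ⟨_, h⟩
          omega)]
        rcases h7 with h7 | h7
        · subst h7
          simp only [hb, if_true]
          rw [hk, h2]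
          unfold lf
          norm_num
        · subst h7
          simp only [hb]
          rw [if_neg (by norm_num), if_true, hk, h3]
          unfold lf
          norm_num
    · rw [Set.mulIndicator_of_notMem (show n ∉ {p : ℕ | p.Prime} from hn),
        Set.mulIndicator_of_notMem (show n ∉ {p : ℕ | p.Prime ∧ 3 < p} from fun h => hn h.1), one_mul]
      simp only [hb]
      rw [if_neg (by rintro rfl; exact hn Nat.prime_two), if_neg (by rintro rfl; exact hn Nat.prime_three)]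
  rw [g5, ← hasProd_subtype_iff_mulIndicator] at g4
  have g6 : ∏' p : {p : ℕ // p.Prime ∧ 3 < p}, ((p : ℕ) : ℝ) ^ 2 * (((p : ℕ) : ℝ) - 3) / (((p : ℕ) : ℝ) - 1) ^ 3 =
      sing s * ∏ n ∈ ({2, 3} : Finset ℕ), b n := g4.tprod_eq
  have g7 : ∏ n ∈ ({2, 3} : Finset ℕ), b n = 2 / 9 := by
    rw [Finset.prod_pair (by norm_num)]
    simp only [hb]
    norm_num
  unfold DD
  rw [g6, g7]
  ring

/-- the triples `n, n + a, n + b` -/
def tri (a b : ℕ) : Finset (ℕ × ℕ) := {(1, 0), (1, a), (1, b)}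

lemma tri_facts {a b : ℕ} (hab : (a = 2 ∧ b = 6) ∨ (a = 4 ∧ b = 6)) : Adm (tri a b) ∧ (tri a b).card = 3 ∧ sing (tri a b) = DD := by
  have h1 : ∀ f ∈ tri a b, f.1 = 1 := by
    intro f hf
    unfold tri at hf
    simp only [Finset.mem_insert, Finset.mem_singleton] at hf
    rcases hf with rfl | rfl | rfl <;> rfl
  have hc : (tri a b).card = 3 := by rcases hab with ⟨rfl, rfl⟩ | ⟨rfl, rfl⟩ <;> decide
  have h2 : nu (tri a b) 2 = 1 := by rcases hab with ⟨rfl, rfl⟩ | ⟨rfl, rfl⟩ <;> decide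
  have h3 : nu (tri a b) 3 = 2 := by rcases hab with ⟨rfl, rfl⟩ | ⟨rfl, rfl⟩ <;> decide
  have hadm : Adm (tri a b) := by
    intro p hp
    rcases Nat.lt_or_ge 3 p with h | h
    · have := nu_le_monic h1 hp
      omega
    · have h7 : p = 2 ∨ p = 3 := by
        have := hp.two_le
        omega
      rcases h7 with rfl | rfl
      · rw [h2]; norm_num
      · rw [h3]; norm_num
  have hs1 : ∀ f ∈ tri a b, 1 ≤ f.1 := fun f hf => (h1 f hf).ge
  refine ⟨hadm, hc, sing_triple hadm hs1 hc h2 h3 fun p hp hp3 => ?_⟩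
  rw [nu_eq_of_not_bad hadm hs1 (Finset.Subset.refl _) hp ?_, hc]
  intro hb
  have h5 : p ∣ 12 := by
    unfold bad at hb
    rw [Finset.mem_union, Finset.mem_biUnion, Finset.mem_biUnion] at hb
    rcases hb with ⟨f, hf, hb⟩ | ⟨⟨f, g⟩, hfg, hb⟩
    · rw [h1 f hf] at hb
      simp at hb
    · rw [Finset.mem_product] at hfg
      obtain ⟨hf, hg⟩ := hfg
      simp only at hf hg hb
      have hd := Nat.dvd_of_mem_primeFactors hb
      have hne : f.1 * g.2 - g.1 * f.2 ≠ 0 := by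
        intro h0
        rw [h0] at hb
        simp at hb
      unfold tri at hf hg
      simp only [Finset.mem_insert, Finset.mem_singleton] at hf hg
      refine hd.trans ?_
      rcases hab with ⟨rfl, rfl⟩ | ⟨rfl, rfl⟩ <;> rcases hf with rfl | rfl | rfl <;> rcases hg with rfl | rfl | rfl <;>
        first | (exfalso; exact hne rfl) | decide
  have h6 : p ∣ 2 * 2 * 3 := h5
  rcases (Nat.Prime.dvd_mul hp).1 h6 with h | h
  · rcases (Nat.Prime.dvd_mul hp).1 h with h | h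
    · have := Nat.le_of_dvd (by norm_num) h
      omega
    · have := Nat.le_of_dvd (by norm_num) h
      omega
  · have := Nat.le_of_dvd (by norm_num) h
    omega

end Pool.Agent.N732.GL
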